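import Pool.Agent.H58.ST.Main
import Pool.Graph.R_seed8.H161R2.KissLow

/-!
# The exponential rate
-/

set_option autoImplicit false
set_option linter.unusedSectionVars false

open Module Filter
open scoped InnerProductSpace

namespace Pool.Agent.H58.ST

open Pool.Agent.H58.SK Pool.Agent.H818R2 Pool.Agent.H161R2.KissSym

section

variable {E : Type*} [NormedAddCommGroup E] [InnerProductSpace ℝ E] [FiniteDimensional ℝ E]

/-- few isometries with the same common fixed space -/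
theorem exists_few_fix (T : Set (E ≃ₗᵢ[ℝ] E)) : ∃ T' : Finset (E ≃ₗᵢ[ℝ] E), (T' : Set _) ⊆ T ∧
    fixS (T' : Set (E ≃ₗᵢ[ℝ] E)) = fixS T ∧ T'.card ≤ finrank ℝ E := by
  classical
  set P : ℕ → Prop := fun m => ∃ T' : Finset (E ≃ₗᵢ[ℝ] E), (T' : Set _) ⊆ T ∧
    finrank ℝ (fixS (T' : Set (E ≃ₗᵢ[ℝ] E))) = m ∧ T'.card + m ≤ finrank ℝ E with hP
  have hex : ∃ m, P m := by
    refine ⟨_, ∅, by simp, rfl, ?_⟩
    rw [Finset.card_empty, zero_add]
    exact Submodule.finrank_le _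
  obtain ⟨T', hT1, hT2, hT3⟩ := Nat.find_spec hex
  refine ⟨T', hT1, le_antisymm ?_ ?_, by omega⟩
  · intro x hx t ht
    by_contra hne
    have h1 : fixS ((insert t T' : Finset _) : Set (E ≃ₗᵢ[ℝ] E)) < fixS (T' : Set (E ≃ₗᵢ[ℝ] E)) := by
      refine lt_of_le_of_ne ?_ fun h => hne ?_
      · intro y hy s hs
        exact hy s (by rw [Finset.coe_insert]; exact Set.mem_insert_of_mem _ hs)
      · rw [← h] at hx
        exact hx t (by rw [Finset.coe_insert]; exact Set.mem_insert _ _)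
    have h2 := Submodule.finrank_lt_finrank_of_lt h1
    have h3 : P (finrank ℝ (fixS ((insert t T' : Finset _) : Set (E ≃ₗᵢ[ℝ] E)))) := by
      refine ⟨insert t T', ?_, rfl, ?_⟩
      · rw [Finset.coe_insert]
        exact Set.insert_subset ht hT1
      · have := Finset.card_insert_le t T'
        omega
    have h4 := Nat.find_min' hex h3
    omega
  · intro x hx t ht
    exact hx t (hT1 ht)

end

lemma ev_pow {c : ℝ} (hc : 1 < c) (k : ℕ) (C : ℝ) : ∀ᶠ n : ℕ in atTop, C * ((n : ℝ) + 2) ^ k ≤ c ^ n := by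
  have h1 := isLittleO_pow_const_const_pow_of_one_lt (R := ℝ) k hc
  have h2 := h1.bound (c := 1 / (3 ^ k * (|C| + 1))) (by positivity)
  filter_upwards [h2, eventually_ge_atTop 1] with n hn hn1
  have hn1' : (1 : ℝ) ≤ n := by exact_mod_cast hn1
  rw [Real.norm_of_nonneg (by positivity), Real.norm_of_nonneg (by positivity), div_mul_eq_mul_div,
    one_mul, le_div_iff₀ (by positivity)] at hn
  have h3 : ((n : ℝ) + 2) ^ k ≤ (3 * n) ^ k := pow_le_pow_left₀ (by positivity) (by linarith) k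
  have h4 : C * ((n : ℝ) + 2) ^ k ≤ (|C| + 1) * (3 * n) ^ k := by
    refine mul_le_mul ?_ h3 (by positivity) (by positivity)
    linarith [le_abs_self C]
  refine h4.trans (le_trans (le_of_eq ?_) hn)
  rw [mul_pow]
  ring

lemma sphMax_iter {θ : ℝ} {m : ℕ} (hθ1 : 0 < θ) (hθ2 : θ < Real.pi / 2) (hm : 0 < m)
    (h7 : 7 ≤ Real.cosh (m * Real.arcosh (1 / Real.cos θ))) {e : ℕ} (he : 4 ≤ e) (j : ℕ) :
    sphMax (e + j) θ ≤ (8 * m) ^ j * sphMax e θ := by
  induction j with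
  | zero => simp
  | succ j ih =>
    calc sphMax (e + (j + 1)) θ = sphMax ((e + j) + 1) θ := by rw [Nat.add_assoc]
      _ ≤ 8 * m * sphMax (e + j) θ := sphMax_succ_le hθ1 hθ2 hm h7 (by omega)
      _ ≤ 8 * m * ((8 * m) ^ j * sphMax e θ) := Nat.mul_le_mul_left _ ih
      _ = (8 * m) ^ (j + 1) * sphMax e θ := by ring

lemma pow_succ_add {x : ℝ} (hx : 0 ≤ x) {p : ℕ} (hp : 0 < p) : (x + 1) ^ p + 1 ≤ (x + 2) ^ p := by
  obtain ⟨s, rfl⟩ : ∃ s, p = s + 1 := ⟨p - 1, by omega⟩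
  have h1 : (x + 1) ^ s ≤ (x + 2) ^ s := pow_le_pow_left₀ (by positivity) (by linarith) s
  have h2 : 1 ≤ (x + 1) ^ s := one_le_pow₀ (by linarith)
  rw [pow_succ, pow_succ]
  nlinarith

section

variable {E : Type*} [NormedAddCommGroup E] [InnerProductSpace ℝ E] [FiniteDimensional ℝ E]

open Classical in
/-- the number of points of `X` which are not mapped into `X` -/
noncomputable def misses (X : Finset E) (g : E ≃ₗᵢ[ℝ] E) : ℕ := (X.filter fun x => g x ∉ X).card

open Classical in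
lemma misses_eq_zero {X : Finset E} {g : E ≃ₗᵢ[ℝ] E} (h : ∀ x ∈ X, g x ∈ X) : misses X g = 0 := by
  unfold misses
  exact Finset.card_eq_zero.2 (Finset.eq_empty_of_forall_notMem fun x hx =>
    (Finset.mem_filter.1 hx).2 (h x (Finset.mem_filter.1 hx).1))

lemma misses_mul (X : Finset E) (t v : E ≃ₗᵢ[ℝ] E) : misses X (t * v) ≤ misses X v + misses X t := by
  classical
  unfold misses
  have h1 : (X.filter fun x => (t * v) x ∉ X) ⊆
      (X.filter fun x => v x ∉ X) ∪ (X.filter fun x => v x ∈ X ∧ t (v x) ∉ X) := by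
    intro x hx
    rw [Finset.mem_filter] at hx
    rw [Finset.mem_union, Finset.mem_filter, Finset.mem_filter]
    by_cases h : v x ∈ X
    · exact Or.inr ⟨hx.1, h, hx.2⟩
    · exact Or.inl ⟨hx.1, h⟩
  have h2 : (X.filter fun x => v x ∈ X ∧ t (v x) ∉ X).card ≤ (X.filter fun x => t x ∉ X).card := by
    rw [← Finset.card_image_of_injective _ v.injective]
    apply Finset.card_le_card
    intro y hy
    obtain ⟨x, hx, rfl⟩ := Finset.mem_image.1 hy
    rw [Finset.mem_filter] at hx ⊢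
    exact hx.2
  refine le_trans ?_ (Nat.add_le_add_left h2 _)
  refine le_trans ?_ (Finset.card_union_le _ _)
  exact Finset.card_le_card h1

/-- the points which are not mapped into `X` by a word -/
lemma misses_words {X : Finset E} {T : Finset (E ≃ₗᵢ[ℝ] E)} {D : ℕ}
    (hT : ∀ t ∈ T, misses X t ≤ D) (j : ℕ) : ∀ w ∈ words T j, misses X w ≤ j * D := by
  induction j with
  | zero =>
    intro w hw
    rw [words, Finset.mem_singleton] at hw
    rw [misses_eq_zero (by rw [hw]; exact fun x hx => hx)]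
    exact Nat.zero_le _
  | succ j ih =>
    intro w hw
    obtain ⟨t, ht, v, hv, rfl⟩ := mem_words_succ.1 hw
    refine (misses_mul X t v).trans ?_
    rw [add_mul, one_mul]
    exact Nat.add_le_add (ih v hv) (hT t ht)

open Classical in
/-- the points which are mapped into `X` by the words of length `r` -/
noncomputable def good (X : Finset E) (T : Finset (E ≃ₗᵢ[ℝ] E)) (r : ℕ) : Finset E :=
  X.filter fun x => ∀ w ∈ words T r, w x ∈ X

open Classical in
lemma good_sub (X : Finset E) (T : Finset (E ≃ₗᵢ[ℝ] E)) (r : ℕ) : good X T r ⊆ X :=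
  Finset.filter_subset _ _

open Classical in
lemma good_maps (X : Finset E) (T : Finset (E ≃ₗᵢ[ℝ] E)) (r : ℕ) : ∀ w ∈ words T r,
    ∀ x ∈ good X T r, w x ∈ X := fun w hw _ hx => (Finset.mem_filter.1 hx).2 w hw

lemma good_card {X : Finset E} {T : Finset (E ≃ₗᵢ[ℝ] E)} {D : ℕ} (hT : ∀ t ∈ T, misses X t ≤ D)
    (r : ℕ) : X.card ≤ (good X T r).card + T.card ^ r * (r * D) := by
  classical
  have h1 : X ⊆ good X T r ∪ (words T r).biUnion fun w => X.filter fun x => w x ∉ X := by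
    intro x hx
    rw [Finset.mem_union, good, Finset.mem_filter, Finset.mem_biUnion]
    by_cases h : ∀ w ∈ words T r, w x ∈ X
    · exact Or.inl ⟨hx, h⟩
    · push Not at h
      obtain ⟨w, hw, hwx⟩ := h
      exact Or.inr ⟨w, hw, Finset.mem_filter.2 ⟨hx, hwx⟩⟩
  refine (Finset.card_le_card h1).trans ((Finset.card_union_le _ _).trans ?_)
  refine Nat.add_le_add_left ?_ _
  have h2 : ((words T r).biUnion fun w => X.filter fun x => w x ∉ X).card ≤
      (words T r).card * (r * D) := by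
    apply Finset.card_biUnion_le_card_mul
    intro w hw
    have h3 := misses_words hT r w hw
    rw [misses] at h3
    convert! h3
  exact h2.trans (Nat.mul_le_mul_right _ (words_card T r))

/-- at least half of the points are good -/
lemma half_good {X : Finset E} {T : Finset (E ≃ₗᵢ[ℝ] E)} {n r : ℕ} (hc : T.card ≤ n + 1)
    (hn1 : 1 ≤ n) (hn : 2 * (r * 2 ^ r) ≤ n) (hT : ∀ g ∈ T, n ^ (r + 1) * misses X g ≤ X.card) :
    (X.card : ℝ) ≤ 2 * (good X T r).card := by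
  have hn1' : (1 : ℝ) ≤ n := by exact_mod_cast hn1
  have h1 := good_card (X := X) (T := T) (D := X.card / n ^ (r + 1)) (fun t ht => by
    rw [Nat.le_div_iff_mul_le (by positivity), mul_comm]
    exact hT t ht) r
  have h2 : (X.card : ℝ) ≤ (good X T r).card + T.card ^ r * (r * (X.card / n ^ (r + 1) : ℕ)) := by
    exact_mod_cast h1
  have h3 : ((X.card / n ^ (r + 1) : ℕ) : ℝ) ≤ (X.card : ℝ) / (n : ℝ) ^ (r + 1) := by
    refine Nat.cast_div_le.trans (le_of_eq ?_)
    rw [Nat.cast_pow]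
  have h4 : (T.card : ℝ) ^ r ≤ (2 * n) ^ r := by
    apply pow_le_pow_left₀ (Nat.cast_nonneg _)
    have : (T.card : ℝ) ≤ n + 1 := by exact_mod_cast hc
    linarith
  have h5 : (T.card : ℝ) ^ r * (r * (X.card / n ^ (r + 1) : ℕ)) ≤
      (2 * n) ^ r * (r * ((X.card : ℝ) / (n : ℝ) ^ (r + 1))) :=
    mul_le_mul h4 (mul_le_mul_of_nonneg_left h3 (Nat.cast_nonneg _)) (by positivity) (by positivity)
  have h6 : (2 * (n : ℝ)) ^ r * (r * ((X.card : ℝ) / (n : ℝ) ^ (r + 1))) =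
      (r * 2 ^ r) / n * X.card := by
    rw [mul_pow, pow_succ]
    field_simp
  have h7 : ((r : ℝ) * 2 ^ r) / n ≤ 1 / 2 := by
    rw [div_le_div_iff₀ (by linarith) (by norm_num)]
    have : ((2 * (r * 2 ^ r) : ℕ) : ℝ) ≤ n := by exact_mod_cast hn
    push_cast at this
    linarith
  have h8 : ((r : ℝ) * 2 ^ r) / n * X.card ≤ 1 / 2 * X.card :=
    mul_le_mul_of_nonneg_right h7 (Nat.cast_nonneg _)
  rw [h6] at h5
  linarith

end

/-- the trace of an isometry -/
noncomputable def trc {n : ℕ} (g : EuclideanSpace ℝ (Fin n) ≃ₗᵢ[ℝ] EuclideanSpace ℝ (Fin n)) : ℝ :=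
  LinearMap.trace ℝ (EuclideanSpace ℝ (Fin n))
    (g.toLinearEquiv : EuclideanSpace ℝ (Fin n) →ₗ[ℝ] EuclideanSpace ℝ (Fin n))

/-- the main bound -/
theorem main_asym {θ : ℝ} (hθ1 : Real.pi / 3 ≤ θ) (hθ2 : θ < Real.pi / 2) {ε : ℝ} (hε : 0 < ε) :
    ∃ κ : ℝ, 0 < κ ∧ ∃ s : ℕ, ∀ᶠ n : ℕ in atTop, ∀ X : Finset (EuclideanSpace ℝ (Fin n)),
      IsSphCode n θ X →
      ∀ T : Set (EuclideanSpace ℝ (Fin n) ≃ₗᵢ[ℝ] EuclideanSpace ℝ (Fin n)),
      (∀ g ∈ T, (1 - κ) * n ≤ trc g ∧ n ^ s * misses X g ≤ X.card) →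
      (X.card : ℝ) ≤ (2 : ℝ) ^ (ε * n) * sphMax (max (finrank ℝ (fixS T)) 4) θ := by
  have hθ0 : 0 < θ := by have := Real.pi_pos; linarith
  have hs : 0 < Real.sin (θ / 2) :=
    Real.sin_pos_of_pos_of_lt_pi (by linarith) (by linarith [Real.pi_pos])
  have hcos : Real.cos θ ≤ 1 / 2 := by
    rw [← Real.cos_pi_div_three]
    exact Real.cos_le_cos_of_nonneg_of_le_pi (by positivity) (by linarith [Real.pi_pos]) hθ1
  obtain ⟨m, hm, h7⟩ := exists_m hθ0 hθ2
  -- the constants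
  set ε₁ := ε / 4 with hε₁
  have hε₁0 : 0 < ε₁ := by positivity
  set ρ : ℝ := (2 : ℝ) ^ (-(ε₁ / 2)) with hρdef
  have hρ0 : 0 < ρ := by positivity
  have hρ1 : ρ < 1 := Real.rpow_lt_one_of_one_lt_of_neg (by norm_num) (by linarith)
  have hρ2 : 0 < 1 - ρ ^ 2 := by nlinarith
  set a : ℝ := min (1 / 1000) ((1 - ρ ^ 2) / 432) with hadef
  have ha : 0 < a := lt_min (by norm_num) (by positivity)
  have ha' : a ≤ 1 / 1000 := min_le_left _ _
  have ha2 : 432 * a + ρ ^ 2 ≤ 1 := by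
    have := min_le_right (1 / 1000 : ℝ) ((1 - ρ ^ 2) / 432)
    rw [← hadef, le_div_iff₀ (by norm_num)] at this
    linarith
  set t : ℝ := √(108 * a) with htdef
  have ht : 0 < t := by positivity
  have ht2 : t ^ 2 = 108 * a := Real.sq_sqrt (by positivity)
  obtain ⟨r, hr⟩ := exists_nat_ge (1 / a + 1)
  obtain ⟨q, hq⟩ := exists_nat_ge (1 / a ^ 2)
  set C₁ : ℝ := 2 * 4 ^ (r + 1) / a ^ 2 with hC₁
  set C₂ : ℝ := (r : ℝ) ^ r * (r.factorial : ℝ) ^ 2 with hC₂
  have hr1 : (1 : ℝ) ≤ r := by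
    have : 0 < 1 / a := by positivity
    linarith
  have hC₁0 : 0 < C₁ := by positivity
  have hC₂0 : 0 < C₂ := by positivity
  set b : ℝ := 2 + 2 / a + 8 * m with hb
  have hb2 : 2 ≤ b := by
    have : 0 < 2 / a := by positivity
    have : (0 : ℝ) ≤ m := Nat.cast_nonneg _
    linarith
  have hb0 : 0 < b := by linarith
  have hlb : 0 < Real.log b := Real.log_pos (by linarith)
  set C : ℝ := q * C₁ + C₂ with hC
  have hC0 : 0 < C := by positivity
  set κ : ℝ := ε₁ * Real.log 2 / (C * Real.log b) with hκ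
  have hκ0 : 0 < κ := by
    have := Real.log_pos (show (1 : ℝ) < 2 by norm_num)
    positivity
  have hbn : ∀ (n : ℕ) (x : ℝ), x ≤ C * κ * n → b ^ x ≤ (2 : ℝ) ^ (ε₁ * n) := by
    intro n x hx
    refine (Real.rpow_le_rpow_of_exponent_le (by linarith) hx).trans (le_of_eq ?_)
    rw [Real.rpow_def_of_pos hb0, Real.rpow_def_of_pos (by norm_num)]
    congr 1
    rw [hκ]
    field_simp
  refine ⟨κ, hκ0, r + 1, ?_⟩
  have h2ε : (1 : ℝ) < (2 : ℝ) ^ ε₁ := Real.one_lt_rpow (by norm_num) hε₁0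
  have h2ε' : (1 : ℝ) < (2 : ℝ) ^ (ε₁ / 2) := Real.one_lt_rpow (by norm_num) (by positivity)
  have hpow : ∀ n : ℕ, ((2 : ℝ) ^ ε₁) ^ n = (2 : ℝ) ^ (ε₁ * n) := fun n => by
    rw [Real.rpow_mul (by norm_num), Real.rpow_natCast]
  filter_upwards [ev_pow h2ε (2 * r * q) 1, ev_pow h2ε 0 (2 * (b ^ q * (8 * m))),
    ev_pow h2ε' 0 (4 / t ^ 3), eventually_ge_atTop 1, eventually_ge_atTop (2 * (r * 2 ^ r))]
    with n hn1 hn2 hn3 hn4 hn5 X₀ hX₀ T hT
  have hn4' : (1 : ℝ) ≤ n := by exact_mod_cast hn4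
  rw [one_mul, hpow] at hn1
  rw [pow_zero, mul_one, hpow] at hn2
  obtain ⟨T', hT1, hT2, hT3⟩ := exists_few_fix T
  rw [finrank_euclideanSpace_fin] at hT3
  classical
  set T₁ := insert 1 T' with hT₁
  have hfix : fixS (T₁ : Set (EuclideanSpace ℝ (Fin n) ≃ₗᵢ[ℝ] EuclideanSpace ℝ (Fin n))) = fixS T := by
    rw [← hT2]
    apply le_antisymm
    · intro x hx s hs
      exact hx s (by rw [hT₁, Finset.coe_insert]; exact Set.mem_insert_of_mem _ hs)
    · intro x hx s hs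
      rw [hT₁, Finset.coe_insert, Set.mem_insert_iff] at hs
      rcases hs with rfl | hs
      · rfl
      · exact hx s hs
  have hT₁c : T₁.card ≤ n + 1 := (Finset.card_insert_le _ _).trans (by omega)
  have hB0 : 0 ≤ 2 * κ * n := by positivity
  have hB : ∀ g ∈ T₁, Sm g (2 * κ * n) := by
    intro g hg
    rw [hT₁, Finset.mem_insert] at hg
    rcases hg with rfl | hg
    · exact sm_one hB0
    · refine (sm_trace g).mono ?_
      have h1 := (hT g (hT1 hg)).1
      rw [trc] at h1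
      linarith
  have hfail : ∀ g ∈ T₁, n ^ (r + 1) * misses X₀ g ≤ X₀.card := by
    intro g hg
    rw [hT₁, Finset.mem_insert] at hg
    rcases hg with rfl | hg
    · rw [misses_eq_zero fun x hx => hx, mul_zero]
      exact Nat.zero_le _
    · exact (hT g (hT1 hg)).2
  have hhalf := half_good hT₁c hn4 hn5 hfail
  set X := good X₀ T₁ r with hXdef
  have hXX : X ⊆ X₀ := good_sub X₀ T₁ r
  have hmaps : ∀ w ∈ words T₁ r, ∀ x ∈ X, w x ∈ X₀ := good_maps X₀ T₁ r
  set e := max (finrank ℝ (fixS T)) 4 with he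
  have he4 : 4 ≤ e := le_max_right _ _
  have hA1 : (1 : ℝ) ≤ sphMax e θ := by
    have h1 := sphMax_pos (d := e) (by omega) hs
    have h2 : 0 < sphMax e θ := by exact_mod_cast h1
    exact_mod_cast h2
  set k := ⌈C₁ * κ * n⌉₊ with hk
  set j := ⌈C₂ * κ * n⌉₊ with hj
  have hkle : (k : ℝ) ≤ C₁ * κ * n + 1 := (Nat.ceil_lt_add_one (by positivity)).le
  have hjle : (j : ℝ) ≤ C₂ * κ * n + 1 := (Nat.ceil_lt_add_one (by positivity)).le
  have hm1 : (1 : ℝ) ≤ m := by exact_mod_cast hm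
  have h8m : (8 * m : ℝ) ≤ b := by
    have : 0 < 2 / a := by positivity
    linarith
  set M : ℝ := 8 * m * (2 : ℝ) ^ (ε₁ * n) * sphMax e θ with hM
  have h2n : (1 : ℝ) ≤ (2 : ℝ) ^ (ε₁ * n) := Real.one_le_rpow (by norm_num) (by positivity)
  have hMge : (2 : ℝ) ^ (ε₁ * n) ≤ M := by
    have h1 : (1 : ℝ) ≤ 8 * m := by linarith
    have h2 : (2 : ℝ) ^ (ε₁ * n) ≤ 8 * m * (2 : ℝ) ^ (ε₁ * n) :=
      le_mul_of_one_le_left (by positivity) h1
    calc (2 : ℝ) ^ (ε₁ * n) ≤ 8 * m * (2 : ℝ) ^ (ε₁ * n) := h2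
      _ = 8 * m * (2 : ℝ) ^ (ε₁ * n) * 1 := (mul_one _).symm
      _ ≤ _ := mul_le_mul_of_nonneg_left hA1 (by positivity)
  have hAd : (sphMax (e + j) θ : ℝ) ≤ M := by
    have h1 := sphMax_iter hθ0 hθ2 hm h7 he4 j
    have h2 : (sphMax (e + j) θ : ℝ) ≤ (8 * m : ℝ) ^ j * sphMax e θ := by exact_mod_cast h1
    refine h2.trans (mul_le_mul_of_nonneg_right ?_ (by positivity))
    have h8 : (1 : ℝ) ≤ 8 * m := by linarith
    calc (8 * m : ℝ) ^ j = (8 * m : ℝ) ^ (j : ℝ) := (Real.rpow_natCast _ _).symm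
      _ ≤ (8 * m : ℝ) ^ (C₂ * κ * n + 1) := Real.rpow_le_rpow_of_exponent_le h8 hjle
      _ = 8 * m * (8 * m : ℝ) ^ (C₂ * κ * n) := by
          rw [Real.rpow_add (by linarith), Real.rpow_one]
          ring
      _ ≤ 8 * m * b ^ (C₂ * κ * n) := by
          apply mul_le_mul_of_nonneg_left _ (by linarith)
          exact Real.rpow_le_rpow (by linarith) h8m (by positivity)
      _ ≤ _ := by
          apply mul_le_mul_of_nonneg_left _ (by linarith)
          apply hbn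
          have h9 : 0 ≤ q * C₁ * κ * n := by positivity
          rw [hC, add_mul, add_mul]
          exact le_add_of_nonneg_left h9
  have hcount := main_count (T := T₁) (a := a) (r := r) (q := q) (k := k) (d := e + j) (t := t)
    (ρ := ρ) (M := M) hs hcos hX₀ hXX (Finset.mem_insert_self _ _) hmaps ha ha' hr hB0 hB hq
    (by
      refine le_trans (le_of_eq ?_) (Nat.le_ceil _)
      rw [hC₁]
      ring)
    (by
      rw [hfix]
      push_cast
      have h1 : (finrank ℝ (fixS T) : ℝ) ≤ e := by exact_mod_cast le_max_left _ _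
      have h2 : C₂ * κ * n ≤ j := Nat.le_ceil _
      refine add_le_add h1 (le_trans (le_of_eq ?_) h2)
      rw [hC₂]
      ring)
    hAd (h2n.trans hMge) ht (by rw [ht2]) hρ0 (by rw [ht2]; linarith)
    (by
      have h1 : ρ ^ n ≤ ρ ^ (n - 1) := pow_le_pow_of_le_one hρ0.le hρ1.le (Nat.sub_le n 1)
      have h2 : (2 : ℝ) ^ (ε₁ * n) * ρ ^ n = ((2 : ℝ) ^ (ε₁ / 2)) ^ n := by
        rw [← hpow, ← mul_pow]
        congr 1
        rw [hρdef, ← Real.rpow_add (by norm_num)]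
        congr 1
        ring
      rw [pow_zero, mul_one, div_le_iff₀ (by positivity)] at hn3
      calc (4 : ℝ) ≤ ((2 : ℝ) ^ (ε₁ / 2)) ^ n * t ^ 3 := hn3
        _ = (2 : ℝ) ^ (ε₁ * n) * (t ^ 3 * ρ ^ n) := by rw [← h2]; ring
        _ ≤ M * (t ^ 3 * ρ ^ (n - 1)) := by
            apply mul_le_mul hMge _ (by positivity) (by positivity)
            exact mul_le_mul_of_nonneg_left h1 (by positivity))
  refine hhalf.trans ((mul_le_mul_of_nonneg_left hcount (by norm_num)).trans ?_)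
  -- the factors
  have hf1 : ((T₁.card : ℝ) ^ (2 * r) + 1) ^ q ≤ (2 : ℝ) ^ (ε₁ * n) := by
    refine le_trans ?_ hn1
    rw [pow_mul ((n : ℝ) + 2)]
    apply pow_le_pow_left₀ (by positivity)
    have h1 : (T₁.card : ℝ) ≤ n + 1 := by exact_mod_cast hT₁c
    have h2 : (T₁.card : ℝ) ^ (2 * r) ≤ ((n : ℝ) + 1) ^ (2 * r) :=
      pow_le_pow_left₀ (by positivity) h1 _
    have h3 : 1 ≤ r := by exact_mod_cast hr1
    have h4 := pow_succ_add (x := (n : ℝ)) (by positivity) (p := 2 * r) (by omega)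
    linarith
  have hf2 : (2 + 2 / a : ℝ) ^ (q * k) ≤ b ^ q * (2 : ℝ) ^ (ε₁ * n) := by
    have h0 : 0 < 2 / a := by positivity
    have h1 : (2 + 2 / a : ℝ) ≤ b := by linarith
    calc (2 + 2 / a : ℝ) ^ (q * k) ≤ b ^ (q * k) := pow_le_pow_left₀ (by positivity) h1 _
      _ = b ^ ((q * k : ℕ) : ℝ) := (Real.rpow_natCast _ _).symm
      _ ≤ b ^ ((q : ℝ) + q * C₁ * κ * n) := by
          apply Real.rpow_le_rpow_of_exponent_le (by linarith)
          rw [Nat.cast_mul]
          have h8 : (0 : ℝ) ≤ q := Nat.cast_nonneg _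
          refine (mul_le_mul_of_nonneg_left hkle h8).trans (le_of_eq ?_)
          ring
      _ = b ^ q * b ^ (q * C₁ * κ * n) := by rw [Real.rpow_add hb0, Real.rpow_natCast]
      _ ≤ _ := by
          apply mul_le_mul_of_nonneg_left _ (by positivity)
          apply hbn
          have h9 : 0 ≤ C₂ * κ * n := by positivity
          rw [hC, add_mul, add_mul]
          exact le_add_of_nonneg_right h9
  have h2n0 : (0 : ℝ) < (2 : ℝ) ^ (ε₁ * n) := by positivity
  calc 2 * (((T₁.card : ℝ) ^ (2 * r) + 1) ^ q * (2 + 2 / a) ^ (q * k) * M)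
      ≤ 2 * ((2 : ℝ) ^ (ε₁ * n) * (b ^ q * (2 : ℝ) ^ (ε₁ * n)) * M) := by
        apply mul_le_mul_of_nonneg_left _ (by norm_num)
        apply mul_le_mul_of_nonneg_right _ (by positivity)
        exact mul_le_mul hf1 hf2 (by positivity) (by positivity)
    _ = (2 * (b ^ q * (8 * m))) * ((2 : ℝ) ^ (ε₁ * n)) ^ 3 * sphMax e θ := by rw [hM]; ring
    _ ≤ (2 : ℝ) ^ (ε₁ * n) * ((2 : ℝ) ^ (ε₁ * n)) ^ 3 * sphMax e θ := by
        apply mul_le_mul_of_nonneg_right _ (by positivity)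
        exact mul_le_mul_of_nonneg_right hn2 (by positivity)
    _ = (2 : ℝ) ^ (ε * n) * sphMax e θ := by
        congr 1
        have h1 : (2 : ℝ) ^ (ε₁ * n) * ((2 : ℝ) ^ (ε₁ * n)) ^ 3 = ((2 : ℝ) ^ (ε₁ * n)) ^ (4 : ℕ) := by
          ring
        rw [h1, ← Real.rpow_natCast, ← Real.rpow_mul (by norm_num)]
        congr 1
        rw [hε₁]
        push_cast
        ring

end Pool.Agent.H58.ST
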