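import Pool.Agent.H58.ST.Small
import Pool.Graph.R_seed8.H818R2.Rate

/-!
# Nets and the choice of a small set of subspaces
-/

set_option autoImplicit false
set_option linter.unusedSectionVars false

open Metric Module
open scoped InnerProductSpace

namespace Pool.Agent.H58.ST

open Pool.Agent.H818R2

section

variable {E : Type*} [NormedAddCommGroup E] [InnerProductSpace ℝ E] [FiniteDimensional ℝ E]

/-- separated points of the unit ball -/
lemma sep_card {P : Finset E} (hP : ∀ p ∈ P, ‖p‖ ≤ 1) {δ : ℝ} (hδ : 0 < δ)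
    (hsep : ∀ p ∈ P, ∀ q ∈ P, p ≠ q → δ ≤ ‖p - q‖) :
    (P.card : ℝ) ≤ (2 + 2 / δ) ^ finrank ℝ E := by
  classical
  borelize E
  rcases subsingleton_or_nontrivial E with hE | hE
  · have h1 : P.card ≤ 1 := Finset.card_le_one.2 fun a _ b _ => Subsingleton.elim a b
    have h2 : finrank ℝ E = 0 := finrank_zero_of_subsingleton
    rw [h2, pow_zero]
    exact_mod_cast h1
  have h1 : Sep 2 (P.image fun p => (2 / δ) • p) := by
    intro x hx y hy hxy
    obtain ⟨p, hp, rfl⟩ := Finset.mem_image.1 hx
    obtain ⟨q, hq, rfl⟩ := Finset.mem_image.1 hy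
    rw [dist_eq_norm, ← smul_sub, norm_smul, Real.norm_of_nonneg (by positivity)]
    have h2 := hsep p hp q hq fun h => hxy (by rw [h])
    rw [div_mul_eq_mul_div, le_div_iff₀ hδ]
    linarith
  have h2 : ∀ x ∈ P.image (fun p => (2 / δ) • p), ‖x‖ ≤ 2 / δ := by
    intro x hx
    obtain ⟨p, hp, rfl⟩ := Finset.mem_image.1 hx
    rw [norm_smul, Real.norm_of_nonneg (by positivity)]
    have := hP p hp
    have h3 : 0 < 2 / δ := by positivity
    nlinarith
  have h3 := replace h1 (R := 2 / δ) (by positivity) h2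
  rw [Finset.card_image_of_injective] at h3
  · have h4 : optDensity E ≤ 1 := optDensity_le_one
    rw [div_le_iff₀ (by positivity)] at h3
    rw [add_comm]
    have : (0 : ℝ) < (2 / δ + 2) ^ finrank ℝ E := by positivity
    nlinarith
  · intro p q hpq
    have h5 : (2 / δ : ℝ) ≠ 0 := by positivity
    exact smul_right_injective E h5 hpq

/-- nets of finite sets of points of the unit ball of a subspace -/
theorem exists_net (Z : Submodule ℝ E) (P : Finset E) (hP : ∀ p ∈ P, p ∈ Z ∧ ‖p‖ ≤ 1) {δ : ℝ}
    (hδ : 0 < δ) : ∃ Y : Finset E, Y ⊆ P ∧ (Y.card : ℝ) ≤ (2 + 2 / δ) ^ finrank ℝ Z ∧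
      ∀ p ∈ P, ∃ y ∈ Y, ‖p - y‖ < δ := by
  classical
  set 𝒴 : Finset (Finset E) :=
    P.powerset.filter fun Y => ∀ p ∈ Y, ∀ q ∈ Y, p ≠ q → δ ≤ ‖p - q‖ with h𝒴
  have hne : 𝒴.Nonempty := ⟨∅, by simp [h𝒴]⟩
  obtain ⟨Y, hY, hmax⟩ := Finset.exists_max_image 𝒴 Finset.card hne
  rw [h𝒴, Finset.mem_filter, Finset.mem_powerset] at hY
  refine ⟨Y, hY.1, ?_, ?_⟩
  · set Y' : Finset Z := Y.subtype (· ∈ Z) with hY'
    have h1 : Y'.card = Y.card := by
      rw [hY', Finset.card_subtype, Finset.filter_true_of_mem fun p hp => (hP p (hY.1 hp)).1]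
    rw [← h1]
    apply sep_card (E := Z) _ hδ
    · intro p hp q hq hpq
      rw [hY', Finset.mem_subtype] at hp hq
      exact hY.2 p hp q hq fun h => hpq (Subtype.ext h)
    · intro p hp
      rw [hY', Finset.mem_subtype] at hp
      exact (hP p (hY.1 hp)).2
  · intro p hp
    by_contra hcon
    push Not at hcon
    have hpY : p ∉ Y := fun h => by
      have := hcon p h
      rw [sub_self, norm_zero] at this
      linarith
    have h1 : insert p Y ∈ 𝒴 := by
      rw [h𝒴, Finset.mem_filter, Finset.mem_powerset]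
      refine ⟨Finset.insert_subset hp hY.1, ?_⟩
      intro a ha b hb hab
      rw [Finset.mem_insert] at ha hb
      rcases ha with rfl | ha <;> rcases hb with rfl | hb
      · exact absurd rfl hab
      · exact hcon b hb
      · rw [norm_sub_rev]
        exact hcon a ha
      · exact hY.2 a ha b hb hab
    have h2 := hmax _ h1
    rw [Finset.card_insert_of_notMem hpY] at h2
    omega

/-- the projection to a larger subspace -/
lemma norm_proj_sup {Z Z' : Submodule ℝ E} (h : Z ≤ Z') (x : E) :
    ‖Z'.starProjection x‖ ^ 2 =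
      ‖Z.starProjection x‖ ^ 2 + ‖Z'.starProjection (x - Z.starProjection x)‖ ^ 2 := by
  have h1 : Z'.starProjection x =
      Z.starProjection x + Z'.starProjection (x - Z.starProjection x) := by
    rw [map_sub, Submodule.starProjection_eq_self_iff.2 (h (Submodule.starProjection_apply_mem Z x))]
    abel
  rw [h1, norm_add_sq_real]
  have h2 : ⟪Z.starProjection x, Z'.starProjection (x - Z.starProjection x)⟫_ℝ = 0 := by
    rw [← Submodule.inner_starProjection_left_eq_right,
      Submodule.starProjection_eq_self_iff.2 (h (Submodule.starProjection_apply_mem Z x))]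
    exact (Submodule.sub_starProjection_mem_orthogonal x) _ (Submodule.starProjection_apply_mem Z x)
  rw [h2]
  ring

lemma norm_proj_mono {V W : Submodule ℝ E} (h : V ≤ W) (x : E) :
    ‖V.starProjection x‖ ≤ ‖W.starProjection x‖ := by
  have h1 := norm_proj_sup h x
  have h2 : 0 ≤ ‖W.starProjection (x - V.starProjection x)‖ ^ 2 := by positivity
  exact le_of_sq_le_sq (by linarith) (norm_nonneg _)

/-- the sum of the subspaces `V h`, `h ∈ S` -/
def sumV {ι : Type*} (V : ι → Submodule ℝ E) (S : Finset ι) : Submodule ℝ E := ⨆ h ∈ S, V h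

lemma le_sumV {ι : Type*} (V : ι → Submodule ℝ E) {S : Finset ι} {h : ι} (hh : h ∈ S) :
    V h ≤ sumV V S := le_iSup₂ (f := fun h (_ : h ∈ S) => V h) h hh

lemma sumV_mono {ι : Type*} (V : ι → Submodule ℝ E) {S T : Finset ι} (hST : S ⊆ T) :
    sumV V S ≤ sumV V T :=
  iSup₂_le fun _ hh => le_sumV V (hST hh)

lemma finrank_sumV {ι : Type*} (V : ι → Submodule ℝ E) (S : Finset ι) {k : ℕ}
    (hk : ∀ h ∈ S, finrank ℝ (V h) ≤ k) : finrank ℝ (sumV V S) ≤ S.card * k := by
  classical
  induction S using Finset.induction_on with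
  | empty =>
    have h1 : sumV V ∅ = ⊥ := by
      unfold sumV
      exact iSup₂_eq_bot.2 fun h hh => absurd hh (Finset.notMem_empty h)
    rw [h1, finrank_bot]
    exact Nat.zero_le _
  | insert a S ha ih =>
    have h1 : sumV V (insert a S) = V a ⊔ sumV V S := by
      unfold sumV
      rw [Finset.iSup_insert]
    rw [h1, Finset.card_insert_of_notMem ha]
    have h2 := Submodule.finrank_add_le_finrank_add_finrank (V a) (sumV V S)
    have h3 := ih fun h hh => hk h (Finset.mem_insert_of_mem hh)
    have h4 := hk a (Finset.mem_insert_self _ _)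
    linarith [Nat.add_mul S.card 1 k]

/-- a unit vector has a small projection to all the `V h` after the projection to few of them is
subtracted -/
theorem exists_few {ι : Type*} (V : ι → Submodule ℝ E) (H : Finset ι) {x : E} (hx : ‖x‖ = 1)
    {β : ℝ} (hβ : 0 < β) : ∃ S : Finset ι, S ⊆ H ∧ (S.card : ℝ) * β ^ 2 ≤ 1 ∧
      ∀ h ∈ H, ‖(V h).starProjection (x - (sumV V S).starProjection x)‖ < β := by
  classical
  set 𝒮 : Finset (Finset ι) := H.powerset.filter fun S =>
    (S.card : ℝ) * β ^ 2 ≤ ‖(sumV V S).starProjection x‖ ^ 2 with h𝒮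
  have hne : 𝒮.Nonempty := ⟨∅, by simp [h𝒮]⟩
  obtain ⟨S, hS, hmax⟩ := Finset.exists_max_image 𝒮 Finset.card hne
  rw [h𝒮, Finset.mem_filter, Finset.mem_powerset] at hS
  refine ⟨S, hS.1, ?_, ?_⟩
  · refine hS.2.trans ?_
    have h1 : ‖(sumV V S).starProjection x‖ ≤ ‖x‖ :=
      ((sumV V S).starProjection.le_opNorm x).trans
        (by
          have h2 := (sumV V S).starProjection_norm_le
          nlinarith [norm_nonneg x])
    rw [hx] at h1
    nlinarith [norm_nonneg ((sumV V S).starProjection x)]
  · intro h hh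
    by_contra hcon
    push Not at hcon
    by_cases hhS : h ∈ S
    · have h1 : (V h).starProjection (x - (sumV V S).starProjection x) = 0 := by
        rw [Submodule.starProjection_apply_eq_zero_iff]
        exact Submodule.orthogonal_le (le_sumV V hhS) (Submodule.sub_starProjection_mem_orthogonal x)
      rw [h1, norm_zero] at hcon
      linarith
    · have h1 : insert h S ∈ 𝒮 := by
        rw [h𝒮, Finset.mem_filter, Finset.mem_powerset]
        refine ⟨Finset.insert_subset hh hS.1, ?_⟩
        rw [Finset.card_insert_of_notMem hhS]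
        have h2 := norm_proj_sup (sumV_mono V (Finset.subset_insert h S)) x
        have h3 := norm_proj_mono (le_sumV V (Finset.mem_insert_self h S))
          (x - (sumV V S).starProjection x)
        have h4 : β ^ 2 ≤ ‖(sumV V (insert h S)).starProjection
            (x - (sumV V S).starProjection x)‖ ^ 2 :=
          pow_le_pow_left₀ hβ.le (hcon.trans h3) 2
        push_cast
        rw [h2]
        linarith [hS.2]
      have h2 := hmax _ h1
      rw [Finset.card_insert_of_notMem hhS] at h2
      omega

end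

end Pool.Agent.H58.ST
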