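import Pool.Agent.H58.SK.Onb

/-!
# Isometries of small displacement
-/

set_option autoImplicit false
set_option linter.unusedSectionVars false

open Module
open scoped InnerProductSpace

namespace Pool.Agent.H58.ST

open Pool.Agent.H58.SK

section

variable {E : Type*} [NormedAddCommGroup E] [InnerProductSpace ℝ E] [FiniteDimensional ℝ E]

/-- the squared Hilbert-Schmidt norm of `g - 1` is at most `B` -/
def Sm (g : E ≃ₗᵢ[ℝ] E) (B : ℝ) : Prop :=
  ∀ (p : ℕ) (u : Fin p → E), Orthonormal ℝ u → ∑ i, ‖g (u i) - u i‖ ^ 2 ≤ B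

lemma Sm.nonneg {g : E ≃ₗᵢ[ℝ] E} {B : ℝ} (h : Sm g B) : 0 ≤ B := by
  have h1 := h 0 (fun i => i.elim0) ⟨fun i => i.elim0, fun i => i.elim0⟩
  simpa using h1

lemma Sm.mono {g : E ≃ₗᵢ[ℝ] E} {B B' : ℝ} (h : Sm g B) (hB : B ≤ B') : Sm g B' :=
  fun p u hu => (h p u hu).trans hB

lemma sm_one {B : ℝ} (hB : 0 ≤ B) : Sm (1 : E ≃ₗᵢ[ℝ] E) B := by
  intro p u _
  have h : ∀ i, ‖(1 : E ≃ₗᵢ[ℝ] E) (u i) - u i‖ ^ 2 = 0 := fun i => by
    change ‖u i - u i‖ ^ 2 = 0
    rw [sub_self, norm_zero]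
    norm_num
  rw [Finset.sum_congr rfl fun i _ => h i, Finset.sum_const_zero]
  exact hB

lemma Sm.mul {g h : E ≃ₗᵢ[ℝ] E} {B B' : ℝ} (hg : Sm g B) (hh : Sm h B') :
    Sm (g * h) (2 * B + 2 * B') := by
  intro p u hu
  have h1 : ∀ i, ‖(g * h) (u i) - u i‖ ^ 2 ≤ 2 * ‖g (u i) - u i‖ ^ 2 + 2 * ‖h (u i) - u i‖ ^ 2 := by
    intro i
    have h2 : (g * h) (u i) - u i = g (h (u i) - u i) + (g (u i) - u i) := by
      rw [map_sub]
      change g (h (u i)) - u i = _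
      abel
    have h3 : ‖(g * h) (u i) - u i‖ ≤ ‖h (u i) - u i‖ + ‖g (u i) - u i‖ := by
      rw [h2]
      refine (norm_add_le _ _).trans ?_
      rw [LinearIsometryEquiv.norm_map]
    nlinarith [norm_nonneg ((g * h) (u i) - u i), sq_nonneg (‖h (u i) - u i‖ - ‖g (u i) - u i‖)]
  refine (Finset.sum_le_sum fun i _ => h1 i).trans ?_
  rw [Finset.sum_add_distrib, ← Finset.mul_sum, ← Finset.mul_sum]
  linarith [hg p u hu, hh p u hu]

lemma Sm.inv {g : E ≃ₗᵢ[ℝ] E} {B : ℝ} (hg : Sm g B) : Sm g⁻¹ B := by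
  intro p u hu
  have h1 : ∀ i, ‖g⁻¹ (u i) - u i‖ = ‖g (u i) - u i‖ := by
    intro i
    have h2 : g (g⁻¹ (u i) - u i) = -(g (u i) - u i) := by
      rw [map_sub]
      have h3 : g (g⁻¹ (u i)) = u i := g.apply_symm_apply (u i)
      rw [h3]
      abel
    rw [← LinearIsometryEquiv.norm_map g, h2, norm_neg]
  simp only [h1]
  exact hg p u hu

/-- the trace formula -/
theorem sm_trace {n : ℕ} (g : EuclideanSpace ℝ (Fin n) ≃ₗᵢ[ℝ] EuclideanSpace ℝ (Fin n)) :
    Sm g (2 * (n - LinearMap.trace ℝ (EuclideanSpace ℝ (Fin n))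
      (g.toLinearEquiv : EuclideanSpace ℝ (Fin n) →ₗ[ℝ] EuclideanSpace ℝ (Fin n)))) := by
  intro p u hu
  rw [← hs_top g, hs]
  set b := (stdOrthonormalBasis ℝ (⊤ : Submodule ℝ (EuclideanSpace ℝ (Fin n))))
  have h1 : ∀ i, ‖g (u i) - u i‖ ^ 2 = ∑ j, ⟪u i, g⁻¹ (b j) - b j⟫_ℝ ^ 2 := by
    intro i
    rw [← sum_onb b (show g (u i) - u i ∈ (⊤ : Submodule ℝ (EuclideanSpace ℝ (Fin n))) from trivial)]
    refine Finset.sum_congr rfl fun j _ => ?_
    rw [inner_sub_right, inner_sub_right, real_inner_comm (u i)]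
    have h2 : ⟪g (u i), (b j : EuclideanSpace ℝ (Fin n))⟫_ℝ =
        ⟪u i, g⁻¹ (b j : EuclideanSpace ℝ (Fin n))⟫_ℝ := by
      have h3 : (b j : EuclideanSpace ℝ (Fin n)) = g (g⁻¹ (b j : EuclideanSpace ℝ (Fin n))) :=
        (g.apply_symm_apply _).symm
      conv_lhs => rw [h3]
      exact g.inner_map_map _ _
    rw [real_inner_comm (g (u i)), h2]
  rw [Finset.sum_congr rfl fun i _ => h1 i, Finset.sum_comm]
  refine Finset.sum_le_sum fun j _ => ?_
  have h2 := hu.sum_inner_products_le (x := g⁻¹ (b j : EuclideanSpace ℝ (Fin n)) - b j)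
    (s := Finset.univ)
  have h3 : ‖g⁻¹ (b j : EuclideanSpace ℝ (Fin n)) - b j‖ =
      ‖g (b j : EuclideanSpace ℝ (Fin n)) - b j‖ := by
    have h4 : g (g⁻¹ (b j : EuclideanSpace ℝ (Fin n)) - b j) =
        -(g (b j : EuclideanSpace ℝ (Fin n)) - b j) := by
      rw [map_sub]
      have h5 : g (g⁻¹ (b j : EuclideanSpace ℝ (Fin n))) = b j := g.apply_symm_apply _
      rw [h5]
      abel
    rw [← LinearIsometryEquiv.norm_map g, h4, norm_neg]
  rw [h3] at h2
  refine le_trans (le_of_eq ?_) h2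
  refine Finset.sum_congr rfl fun i _ => ?_
  rw [Real.norm_eq_abs, sq_abs]

/-- outside of a small subspace the displacement is small -/
theorem exists_big {h : E ≃ₗᵢ[ℝ] E} {B : ℝ} (hB : Sm h B) {ω : ℝ} (hω : 0 < ω) :
    ∃ V : Submodule ℝ E, finrank ℝ V * ω ^ 2 ≤ B ∧ ∀ x ∈ Vᗮ, ‖h x - x‖ ≤ ω * ‖x‖ := by
  classical
  set P : ℕ → Prop := fun p => ∃ u : Fin p → E, Orthonormal ℝ u ∧ ∀ i, ω ≤ ‖h (u i) - u i‖ with hP
  have hP0 : P 0 := ⟨fun i => i.elim0, ⟨fun i => i.elim0, fun i => i.elim0⟩, fun i => i.elim0⟩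
  have hbd : ∀ p, P p → p ≤ finrank ℝ E := by
    rintro p ⟨u, hu, -⟩
    have := hu.linearIndependent.fintype_card_le_finrank
    rwa [Fintype.card_fin] at this
  obtain ⟨p, hp, hmax⟩ : ∃ p, P p ∧ ¬ P (p + 1) := by
    by_contra hcon
    push Not at hcon
    have h1 : ∀ p, P p := fun p => by
      induction p with
      | zero => exact hP0
      | succ p ih => exact hcon p ih
    have h2 := hbd _ (h1 (finrank ℝ E + 1))
    omega
  obtain ⟨u, hu, hω'⟩ := hp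
  refine ⟨Submodule.span ℝ (Set.range u), ?_, ?_⟩
  · rw [finrank_onb hu]
    refine le_trans ?_ (hB p u hu)
    have h1 : ∑ _i : Fin p, ω ^ 2 ≤ ∑ i, ‖h (u i) - u i‖ ^ 2 :=
      Finset.sum_le_sum fun i _ => pow_le_pow_left₀ hω.le (hω' i) 2
    rw [Finset.sum_const, Finset.card_univ, Fintype.card_fin, nsmul_eq_mul] at h1
    exact h1
  · intro x hx
    rcases eq_or_ne x 0 with rfl | hx0
    · simp
    have hxn : 0 < ‖x‖ := norm_pos_iff.2 hx0
    by_contra hcon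
    push Not at hcon
    apply hmax
    refine ⟨Fin.cons (‖x‖⁻¹ • x) u, ?_, ?_⟩
    · rw [Submodule.mem_orthogonal] at hx
      have hn : ‖(‖x‖⁻¹ • x)‖ = 1 := by
        rw [norm_smul, norm_inv, norm_norm, inv_mul_cancel₀ hxn.ne']
      have ho : ∀ i, ⟪u i, ‖x‖⁻¹ • x⟫_ℝ = 0 := fun i => by
        rw [inner_smul_right, hx _ (Submodule.subset_span ⟨i, rfl⟩), mul_zero]
      constructor
      · intro i
        refine Fin.cases ?_ (fun i => ?_) i
        · rw [Fin.cons_zero]; exact hn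
        · rw [Fin.cons_succ]; exact hu.1 i
      · intro i j hij
        rcases Fin.eq_zero_or_eq_succ i with rfl | ⟨i', rfl⟩ <;>
          rcases Fin.eq_zero_or_eq_succ j with rfl | ⟨j', rfl⟩
        · exact absurd rfl hij
        · rw [Fin.cons_zero, Fin.cons_succ, real_inner_comm]
          exact ho j'
        · rw [Fin.cons_zero, Fin.cons_succ]
          exact ho i'
        · rw [Fin.cons_succ, Fin.cons_succ]
          exact hu.2 fun h => hij (by rw [h])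
    · intro i
      refine Fin.cases ?_ (fun i => ?_) i
      · rw [Fin.cons_zero, map_smul, ← smul_sub, norm_smul, norm_inv, norm_norm]
        rw [le_inv_mul_iff₀ hxn]
        linarith
      · rw [Fin.cons_succ]; exact hω' i

/-- the displacement and the projection -/
lemma disp_le {h : E ≃ₗᵢ[ℝ] E} {V : Submodule ℝ E} {ω : ℝ} (hω : 0 ≤ ω)
    (hV : ∀ x ∈ Vᗮ, ‖h x - x‖ ≤ ω * ‖x‖) (x : E) :
    ‖h x - x‖ ≤ 2 * ‖V.starProjection x‖ + ω * ‖x‖ := by
  set y := V.starProjection x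
  have h1 : h x - x = (h y - y) + (h (x - y) - (x - y)) := by
    rw [map_sub]
    abel
  have h2 : ‖h y - y‖ ≤ 2 * ‖y‖ := by
    refine (norm_sub_le _ _).trans ?_
    rw [LinearIsometryEquiv.norm_map]
    linarith
  have h3 : x - y ∈ Vᗮ := Submodule.sub_starProjection_mem_orthogonal x
  have h4 : ‖x - y‖ ≤ ‖x‖ := by
    have h5 : ‖x‖ ^ 2 = ‖y‖ ^ 2 + ‖x - y‖ ^ 2 := by
      have h6 : x = y + (x - y) := by abel
      conv_lhs => rw [h6]
      rw [norm_add_sq_real, h3 y (Submodule.starProjection_apply_mem V x)]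
      ring
    exact le_of_sq_le_sq (by nlinarith [sq_nonneg ‖y‖]) (norm_nonneg _)
  rw [h1]
  refine (norm_add_le _ _).trans (add_le_add h2 ((hV _ h3).trans ?_))
  exact mul_le_mul_of_nonneg_left h4 hω

end

end Pool.Agent.H58.ST
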