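import Pool.Agent.H58.ST.Disp

/-!
# Finite orbits of tuples of points
-/

set_option autoImplicit false
set_option linter.unusedSectionVars false

open Module
open scoped InnerProductSpace

namespace Pool.Agent.H58.ST

open Pool.Agent.H58.SK

section

variable {E : Type*} [NormedAddCommGroup E] [InnerProductSpace ℝ E] [FiniteDimensional ℝ E]

/-- few points of small norm and large mutual distance -/
lemma cluster_card {s : Finset E} {R D η : ℝ} (hη : 0 ≤ η) (hR0 : 0 ≤ R) (hR : ∀ p ∈ s, ‖p‖ ^ 2 ≤ R)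
    (hD : ∀ p ∈ s, ∀ q ∈ s, p ≠ q → D ≤ ‖p - q‖ ^ 2) (h : R ≤ D / 2 - η) :
    (s.card : ℝ) * η ≤ R + η := by
  classical
  rcases s.eq_empty_or_nonempty with h0 | ⟨p0, hp0⟩
  · rw [h0]
    simp only [Finset.card_empty, Nat.cast_zero, zero_mul]
    linarith
  have hc : (0 : ℝ) < s.card := by exact_mod_cast Finset.card_pos.2 ⟨p0, hp0⟩
  have h1 : 0 ≤ ‖∑ p ∈ s, p‖ ^ 2 := by positivity
  rw [← real_inner_self_eq_norm_sq, sum_inner] at h1
  have h2 : ∀ p ∈ s, ⟪p, ∑ q ∈ s, q⟫_ℝ ≤ R + η - s.card * η := by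
    intro p hp
    rw [inner_sum]
    have h3 : ∀ q ∈ s, ⟪p, q⟫_ℝ ≤ -η + (if q = p then R + η else 0) := by
      intro q hq
      split_ifs with h
      · rw [h, real_inner_self_eq_norm_sq]
        linarith [hR p hp]
      · have h4 := hD p hp q hq fun h' => h h'.symm
        have h5 := norm_sub_sq_real p q
        linarith [hR p hp, hR q hq]
    refine (Finset.sum_le_sum h3).trans ?_
    rw [Finset.sum_add_distrib, Finset.sum_const, Finset.sum_ite_eq' s p, if_pos hp, nsmul_eq_mul]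
    linarith
  have h3 := h1.trans (Finset.sum_le_sum h2)
  rw [Finset.sum_const, nsmul_eq_mul] at h3
  have h4 := nonneg_of_mul_nonneg_right h3 hc
  linarith

/-- the common fixed space of a set of isometries -/
def fixS (T : Set (E ≃ₗᵢ[ℝ] E)) : Submodule ℝ E where
  carrier := {x | ∀ t ∈ T, t x = x}
  add_mem' := fun {x y} hx hy t ht => by rw [map_add, hx t ht, hy t ht]
  zero_mem' := fun t _ => map_zero t
  smul_mem' := fun c x hx t ht => by rw [map_smul, hx t ht]

lemma mem_fixS {T : Set (E ≃ₗᵢ[ℝ] E)} {x : E} : x ∈ fixS T ↔ ∀ t ∈ T, t x = x := Iff.rfl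

lemma mul_apply' (g h : E ≃ₗᵢ[ℝ] E) (x : E) : (g * h) x = g (h x) := rfl

lemma pow_apply' (g : E ≃ₗᵢ[ℝ] E) (i : ℕ) (x : E) : (g ^ (i + 1)) x = g ((g ^ i) x) := by
  rw [pow_succ']
  rfl

lemma disp_pow (g : E ≃ₗᵢ[ℝ] E) (i : ℕ) (x : E) : ‖(g ^ i) x - x‖ ≤ i * ‖g x - x‖ := by
  induction i with
  | zero =>
    rw [pow_zero]
    change ‖x - x‖ ≤ _
    simp
  | succ i ih =>
    have h1 : (g ^ (i + 1)) x - x = g ((g ^ i) x - x) + (g x - x) := by
      rw [pow_apply', map_sub]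
      abel
    rw [h1]
    refine (norm_add_le _ _).trans ?_
    rw [LinearIsometryEquiv.norm_map]
    push_cast
    linarith

/-- isometries with `g ^ L = 1` on a stable subspace move the orthogonal complement of the fixed
vectors by a fixed amount -/
lemma disp_period {P : Submodule ℝ E} {g : E ≃ₗᵢ[ℝ] E} (hgP : ∀ x ∈ P, g x ∈ P) {L : ℕ} (hL : 0 < L)
    (hgL : ∀ x ∈ P, (g ^ L) x = x) {u : E} (hu : u ∈ P) (huo : u ∈ (P ⊓ fixS {g})ᗮ) :
    2 * ‖u‖ ^ 2 ≤ (L : ℝ) ^ 2 * ‖g u - u‖ ^ 2 := by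
  have hL' : (0 : ℝ) < L := by exact_mod_cast hL
  have hpP : ∀ i : ℕ, (g ^ i) u ∈ P := by
    intro i
    induction i with
    | zero => exact hu
    | succ i ih => rw [pow_apply']; exact hgP _ ih
  set v := ∑ i ∈ Finset.range L, (g ^ i) u with hv
  have hvQ : v ∈ P ⊓ fixS {g} := by
    refine ⟨Submodule.sum_mem _ fun i _ => hpP i, ?_⟩
    rintro t rfl
    have h1 : t v = ∑ i ∈ Finset.range L, (t ^ (i + 1)) u := by
      rw [hv, map_sum]
      exact Finset.sum_congr rfl fun i _ => (pow_apply' t i u).symm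
    have h2 := Finset.sum_range_succ' (fun i => (t ^ i) u) L
    have h3 := Finset.sum_range_succ (fun i => (t ^ i) u) L
    rw [hgL u hu, ← hv] at h3
    rw [← h1, h3, pow_zero] at h2
    change v + u = t v + u at h2
    exact (add_right_cancel h2).symm
  rw [Submodule.mem_orthogonal] at huo
  have hinv : ∀ q ∈ P ⊓ fixS {g}, ∀ i : ℕ, ⟪q, (g ^ i) u⟫_ℝ = 0 := by
    intro q hq i
    induction i with
    | zero => exact huo q hq
    | succ i ih =>
      have h1 : q = g q := (hq.2 g rfl).symm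
      rw [pow_apply']
      conv_lhs => rw [h1]
      rw [LinearIsometryEquiv.inner_map_map]
      exact ih
  have hv0 : v = 0 := by
    have h1 : ⟪v, v⟫_ℝ = 0 := by
      conv_lhs => rw [hv, inner_sum]
      exact Finset.sum_eq_zero fun i _ => hinv v hvQ i
    exact inner_self_eq_zero.1 h1
  have h1 : ∑ i ∈ Finset.range L, ⟪u, (g ^ i) u⟫_ℝ = 0 := by
    rw [← inner_sum, ← hv, hv0, inner_zero_right]
  have h2 : ∀ i ∈ Finset.range L, ‖u‖ ^ 2 - (L : ℝ) ^ 2 * ‖g u - u‖ ^ 2 / 2 ≤ ⟪u, (g ^ i) u⟫_ℝ := by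
    intro i hi
    have hiL : (i : ℝ) ≤ L := by exact_mod_cast (Finset.mem_range.1 hi).le
    have h3 := disp_pow g i u
    have h4 := norm_sub_sq_real ((g ^ i) u) u
    rw [LinearIsometryEquiv.norm_map, real_inner_comm] at h4
    have h5 : ‖(g ^ i) u - u‖ ^ 2 ≤ ((L : ℝ) * ‖g u - u‖) ^ 2 := by
      apply pow_le_pow_left₀ (norm_nonneg _)
      exact h3.trans (mul_le_mul_of_nonneg_right hiL (norm_nonneg _))
    nlinarith
  have h3 := Finset.sum_le_sum h2
  rw [h1, Finset.sum_const, Finset.card_range, nsmul_eq_mul] at h3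
  have h4 := nonpos_of_mul_nonpos_right h3 hL'
  linarith

/-- the dimension of the moved part of a stable subspace -/
lemma finrank_period {P : Submodule ℝ E} {g : E ≃ₗᵢ[ℝ] E} (hgP : ∀ x ∈ P, g x ∈ P) {L : ℕ}
    (hL : 0 < L) (hgL : ∀ x ∈ P, (g ^ L) x = x) {B : ℝ} (hB : Sm g B) :
    2 * (finrank ℝ P : ℝ) ≤ 2 * finrank ℝ (P ⊓ fixS {g} : Submodule ℝ E) + L ^ 2 * B := by
  set Q : Submodule ℝ E := P ⊓ fixS {g} with hQ
  have h1 := Submodule.finrank_add_inf_finrank_orthogonal (K₁ := Q) (K₂ := P) inf_le_left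
  set M : Submodule ℝ E := Qᗮ ⊓ P with hM
  set b := stdOrthonormalBasis ℝ M
  have hon : Orthonormal ℝ fun i => (b i : E) := b.orthonormal.comp_linearIsometry M.subtypeₗᵢ
  have h2 := hB _ _ hon
  have h3 : ∀ i, 2 ≤ (L : ℝ) ^ 2 * ‖g (b i) - b i‖ ^ 2 := by
    intro i
    have h4 := disp_period hgP hL hgL (u := b i) (b i).2.2 (b i).2.1
    have h5 : ‖(b i : E)‖ = 1 := hon.1 i
    rw [h5] at h4
    linarith
  have h4 : 2 * (finrank ℝ M : ℝ) ≤ L ^ 2 * B := by
    calc 2 * (finrank ℝ M : ℝ) = ∑ _i : Fin (finrank ℝ M), (2 : ℝ) := by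
          rw [Finset.sum_const, Finset.card_univ, Fintype.card_fin, nsmul_eq_mul]; ring
      _ ≤ ∑ i, (L : ℝ) ^ 2 * ‖g (b i) - b i‖ ^ 2 := Finset.sum_le_sum fun i _ => h3 i
      _ = L ^ 2 * ∑ i, ‖g (b i) - b i‖ ^ 2 := by rw [Finset.mul_sum]
      _ ≤ _ := mul_le_mul_of_nonneg_left h2 (by positivity)
  have h5 : (finrank ℝ P : ℝ) = finrank ℝ Q + finrank ℝ M := by exact_mod_cast h1.symm
  rw [h5]
  linarith

/-- several isometries -/
lemma finrank_several {P : Submodule ℝ E} {k : ℝ} (T : Finset (E ≃ₗᵢ[ℝ] E))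
    (hT : ∀ g ∈ T, (finrank ℝ P : ℝ) ≤ finrank ℝ (P ⊓ fixS {g} : Submodule ℝ E) + k) :
    (finrank ℝ P : ℝ) ≤ finrank ℝ (P ⊓ fixS (T : Set (E ≃ₗᵢ[ℝ] E)) : Submodule ℝ E) + T.card * k := by
  classical
  induction T using Finset.induction_on with
  | empty =>
    have h1 : P ⊓ fixS ((∅ : Finset (E ≃ₗᵢ[ℝ] E)) : Set (E ≃ₗᵢ[ℝ] E)) = P := by
      apply inf_eq_left.2
      intro x _ t ht
      simp at ht
    rw [h1]
    simp
  | insert g T hg ih =>
    have h1 := ih fun g' hg' => hT g' (Finset.mem_insert_of_mem hg')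
    have h2 := hT g (Finset.mem_insert_self g T)
    set Q₁ : Submodule ℝ E := P ⊓ fixS {g} with hQ₁
    set Q₂ : Submodule ℝ E := P ⊓ fixS (T : Set (E ≃ₗᵢ[ℝ] E)) with hQ₂
    have h3 : Q₁ ⊓ Q₂ ≤ P ⊓ fixS ((insert g T : Finset (E ≃ₗᵢ[ℝ] E)) : Set (E ≃ₗᵢ[ℝ] E)) := by
      rintro x ⟨⟨hx1, hx2⟩, ⟨-, hx3⟩⟩
      refine ⟨hx1, ?_⟩
      intro t ht
      rw [Finset.mem_coe, Finset.mem_insert] at ht
      rcases ht with rfl | ht
      · exact hx2 t rfl
      · exact hx3 t ht
    have h4 := Submodule.finrank_mono h3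
    have h5 := Submodule.finrank_sup_add_finrank_inf_eq Q₁ Q₂
    have h6 : finrank ℝ (Q₁ ⊔ Q₂ : Submodule ℝ E) ≤ finrank ℝ P :=
      Submodule.finrank_mono (sup_le inf_le_left inf_le_left)
    rw [Finset.card_insert_of_notMem hg]
    have h4' : (finrank ℝ (Q₁ ⊓ Q₂ : Submodule ℝ E) : ℝ) ≤ finrank ℝ (P ⊓ fixS
      ((insert g T : Finset (E ≃ₗᵢ[ℝ] E)) : Set (E ≃ₗᵢ[ℝ] E)) : Submodule ℝ E) := by exact_mod_cast h4
    have h5' : (finrank ℝ (Q₁ ⊔ Q₂ : Submodule ℝ E) : ℝ) + finrank ℝ (Q₁ ⊓ Q₂ : Submodule ℝ E) =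
      finrank ℝ Q₁ + finrank ℝ Q₂ := by exact_mod_cast h5
    have h6' : (finrank ℝ (Q₁ ⊔ Q₂ : Submodule ℝ E) : ℝ) ≤ finrank ℝ P := by exact_mod_cast h6
    push_cast
    linarith

open Classical in
/-- the products of `j` elements of `T` -/
noncomputable def words (T : Finset (E ≃ₗᵢ[ℝ] E)) : ℕ → Finset (E ≃ₗᵢ[ℝ] E)
  | 0 => {1}
  | j + 1 => (T ×ˢ words T j).image fun p => p.1 * p.2

lemma mem_words_succ {T : Finset (E ≃ₗᵢ[ℝ] E)} {j : ℕ} {w : E ≃ₗᵢ[ℝ] E} :
    w ∈ words T (j + 1) ↔ ∃ t ∈ T, ∃ v ∈ words T j, t * v = w := by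
  classical
  rw [words, Finset.mem_image]
  constructor
  · rintro ⟨⟨t, v⟩, h, rfl⟩
    rw [Finset.mem_product] at h
    exact ⟨t, h.1, v, h.2, rfl⟩
  · rintro ⟨t, ht, v, hv, rfl⟩
    exact ⟨⟨t, v⟩, Finset.mem_product.2 ⟨ht, hv⟩, rfl⟩

lemma words_card (T : Finset (E ≃ₗᵢ[ℝ] E)) (j : ℕ) : (words T j).card ≤ T.card ^ j := by
  classical
  induction j with
  | zero => simp [words]
  | succ j ih =>
    rw [words]
    refine Finset.card_image_le.trans ?_
    rw [Finset.card_product, pow_succ']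
    exact Nat.mul_le_mul_left _ ih

lemma words_mono {T : Finset (E ≃ₗᵢ[ℝ] E)} (h1 : 1 ∈ T) (j : ℕ) : words T j ⊆ words T (j + 1) := by
  intro w hw
  rw [mem_words_succ]
  exact ⟨1, h1, w, hw, one_mul w⟩

lemma words_ind {T : Finset (E ≃ₗᵢ[ℝ] E)} {p : (E ≃ₗᵢ[ℝ] E) → Prop} (h1 : p 1)
    (hT : ∀ t ∈ T, ∀ w, p w → p (t * w)) (j : ℕ) : ∀ w ∈ words T j, p w := by
  induction j with
  | zero =>
    intro w hw
    rw [words, Finset.mem_singleton] at hw
    rw [hw]
    exact h1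
  | succ j ih =>
    intro w hw
    obtain ⟨t, ht, v, hv, rfl⟩ := mem_words_succ.1 hw
    exact hT t ht v (ih v hv)

/-- an increasing sequence of finite sets with few elements is stationary somewhere -/
lemma exists_stat {β : Type*} [DecidableEq β] (f : ℕ → Finset β) (hf : ∀ j, f j ⊆ f (j + 1))
    (h0 : (f 0).Nonempty) {r : ℕ} (hr : (f r).card ≤ r) : ∃ j < r, f j = f (j + 1) := by
  by_contra hcon
  push Not at hcon
  have h1 : ∀ j, j ≤ r → j + 1 ≤ (f j).card := by
    intro j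
    induction j with
    | zero => intro _; exact h0.card_pos
    | succ j ih =>
      intro hj
      have h2 := ih (by omega)
      have h3 := Finset.card_lt_card (lt_of_le_of_ne (hf j) (hcon j (by omega)))
      omega
  have h2 := h1 r le_rfl
  omega

/-- the restriction of an isometry to a finite set -/
def res (C : Finset E) (g : E ≃ₗᵢ[ℝ] E) : C → E := fun x => g x

/-- the span of the values of the functions of `A` -/
def spanV {C : Finset E} (A : Finset (C → E)) : Submodule ℝ E :=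
  Submodule.span ℝ {y | ∃ a ∈ A, ∃ x, a x = y}

open Classical in
/-- a finite set of tuples which is stable under the isometries of `T` -/
theorem stable_set {C : Finset E} {A : Finset (C → E)} {T : Finset (E ≃ₗᵢ[ℝ] E)}
    (hTA : ∀ t ∈ T, ∀ a ∈ A, (fun x => t (a x)) ∈ A) {B : ℝ} (hB0 : 0 ≤ B)
    (hB : ∀ t ∈ T, Sm t B) :
    (finrank ℝ (spanV A) : ℝ) ≤ finrank ℝ (fixS (T : Set (E ≃ₗᵢ[ℝ] E))) +
      (A.card : ℝ) ^ A.card * ((A.card.factorial : ℝ) ^ 2 * B / 2) := by
  set P := spanV A with hP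
  -- the elements of `T` permute `A`
  have hact : ∀ t : (E ≃ₗᵢ[ℝ] E), t ∈ T → ∃ σ : Equiv.Perm A, ∀ a : A, (σ a : C → E) =
      fun x => t ((a : C → E) x) := by
    intro t ht
    set φ : A → A := fun a => ⟨fun x => t ((a : C → E) x), hTA t ht a a.2⟩ with hφ
    have hinj : Function.Injective φ := by
      intro a b hab
      apply Subtype.ext
      funext x
      have h1 := congrArg (fun c : A => (c : C → E) x) hab
      exact t.injective h1
    refine ⟨Equiv.ofBijective φ (Finite.injective_iff_bijective.1 hinj), fun a => rfl⟩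
  choose! σ hσ using hact
  have hperP : ∀ t ∈ T, ∀ x ∈ P, t x ∈ P := by
    intro t ht x hx
    rw [hP, spanV] at hx ⊢
    induction hx using Submodule.span_induction with
    | mem x hx =>
      obtain ⟨a, ha, y, rfl⟩ := hx
      exact Submodule.subset_span ⟨_, hTA t ht a ha, y, rfl⟩
    | zero => rw [map_zero]; exact Submodule.zero_mem _
    | add x y _ _ h1 h2 => rw [map_add]; exact Submodule.add_mem _ h1 h2
    | smul c x _ h => rw [map_smul]; exact Submodule.smul_mem _ c h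
  have hpow : ∀ t ∈ T, ∀ i : ℕ, ∀ a : A, (((σ t) ^ i) a : C → E) = fun x => (t ^ i) ((a : C → E) x) := by
    intro t ht i
    induction i with
    | zero =>
      intro a
      rfl
    | succ i ih =>
      intro a
      rw [pow_succ', Equiv.Perm.mul_apply, hσ t ht, ih a]
      funext x
      exact (pow_apply' t i _).symm
  have hper : ∀ t ∈ T, ∀ x ∈ P, (t ^ A.card.factorial) x = x := by
    intro t ht x hx
    have h1 : (σ t) ^ A.card.factorial = 1 := by
      have h2 : Fintype.card (Equiv.Perm A) = A.card.factorial := by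
        rw [Fintype.card_perm, Fintype.card_coe]
      rw [← h2]
      exact pow_card_eq_one
    rw [hP, spanV] at hx
    induction hx using Submodule.span_induction with
    | mem x hx =>
      obtain ⟨a, ha, y, rfl⟩ := hx
      have h3 := hpow t ht A.card.factorial ⟨a, ha⟩
      rw [h1] at h3
      exact (congrFun h3 y).symm
    | zero => exact map_zero _
    | add x y _ _ h1 h2 => rw [map_add, h1, h2]
    | smul c x _ h => rw [map_smul, h]
  -- representatives
  obtain ⟨T', hT'T, hT'c, hT'⟩ : ∃ T' : Finset (E ≃ₗᵢ[ℝ] E), T' ⊆ T ∧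
      T'.card ≤ A.card ^ A.card ∧ ∀ t ∈ T, ∃ t' ∈ T', σ t' = σ t := by
    have h1 : ∀ τ ∈ T.image σ, ∃ t ∈ T, σ t = τ := fun τ hτ => Finset.mem_image.1 hτ
    choose! s hs using h1
    refine ⟨(T.image σ).image s, ?_, ?_, ?_⟩
    · intro t ht
      obtain ⟨τ, hτ, rfl⟩ := Finset.mem_image.1 ht
      exact (hs τ hτ).1
    · refine Finset.card_image_le.trans ((Finset.card_le_univ _).trans ?_)
      rw [Fintype.card_perm, Fintype.card_coe]
      exact Nat.factorial_le_pow _
    · intro t ht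
      have h2 := Finset.mem_image_of_mem σ ht
      exact ⟨_, Finset.mem_image_of_mem s h2, (hs _ h2).2⟩
  have hfix : P ⊓ fixS (T' : Set (E ≃ₗᵢ[ℝ] E)) ≤ fixS (T : Set (E ≃ₗᵢ[ℝ] E)) := by
    rintro x ⟨hx, hx'⟩ t ht
    obtain ⟨t', ht', hσt⟩ := hT' t ht
    rw [← hx' t' ht']
    have h1 : ∀ y ∈ P, t y = t' y := by
      intro y hy
      rw [hP, spanV] at hy
      induction hy using Submodule.span_induction with
      | mem y hy =>
        obtain ⟨a, ha, z, rfl⟩ := hy
        have h2 := hσ t ht ⟨a, ha⟩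
        have h3 := hσ t' (hT'T ht') ⟨a, ha⟩
        rw [hσt, h2] at h3
        exact congrFun h3 z
      | zero => rw [map_zero, map_zero]
      | add y z _ _ h1 h2 => rw [map_add, map_add, h1, h2]
      | smul c y _ h => rw [map_smul, map_smul, h]
    rw [hx' t' ht', h1 x hx, hx' t' ht']
  have h1 := finrank_several (P := P) (k := (A.card.factorial : ℝ) ^ 2 * B / 2) T' (by
    intro t ht
    have h2 := finrank_period (hperP t (hT'T ht)) (Nat.factorial_pos _) (hper t (hT'T ht))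
      (hB t (hT'T ht))
    linarith)
  have h2 : (finrank ℝ (P ⊓ fixS (T' : Set (E ≃ₗᵢ[ℝ] E)) : Submodule ℝ E) : ℝ) ≤
      finrank ℝ (fixS (T : Set (E ≃ₗᵢ[ℝ] E))) := by exact_mod_cast Submodule.finrank_mono hfix
  have h4 : (T'.card : ℝ) ≤ (A.card : ℝ) ^ A.card := by exact_mod_cast hT'c
  have h5 : (T'.card : ℝ) * ((A.card.factorial : ℝ) ^ 2 * B / 2) ≤
      (A.card : ℝ) ^ A.card * ((A.card.factorial : ℝ) ^ 2 * B / 2) :=
    mul_le_mul_of_nonneg_right h4 (by positivity)
  linarith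

open Classical in
/-- if the words of length `r` have at most `r` different restrictions to `C`, then `C` is in a space
whose dimension is not much larger than the one of the common fixed space -/
theorem tuple_dim {C : Finset E} {T : Finset (E ≃ₗᵢ[ℝ] E)} (h1T : 1 ∈ T) {r : ℕ}
    (hr : ((words T r).image (res C)).card ≤ r) {B : ℝ} (hB0 : 0 ≤ B) (hB : ∀ t ∈ T, Sm t B) :
    ∃ P : Submodule ℝ E, (∀ x ∈ C, x ∈ P) ∧
      (finrank ℝ P : ℝ) ≤ finrank ℝ (fixS (T : Set (E ≃ₗᵢ[ℝ] E))) +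
        (r : ℝ) ^ r * ((r.factorial : ℝ) ^ 2 * B / 2) := by
  obtain ⟨j, hj, hst⟩ := exists_stat (fun j => (words T j).image (res C))
    (fun j => Finset.image_subset_image (words_mono h1T j))
    ⟨res C 1, Finset.mem_image_of_mem _ (by rw [words]; exact Finset.mem_singleton_self _)⟩ hr
  have hmono : ∀ i k, words T i ⊆ words T (i + k) := by
    intro i k
    induction k with
    | zero => exact Finset.Subset.refl _
    | succ k ih => exact ih.trans (words_mono h1T _)
  set A : Finset (C → E) := (words T j).image (res C) with hA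
  have hAc : A.card ≤ r := by
    refine le_trans (Finset.card_le_card (Finset.image_subset_image ?_)) hr
    have := hmono j (r - j)
    rwa [Nat.add_sub_cancel' hj.le] at this
  have hTA : ∀ t ∈ T, ∀ a ∈ A, (fun x => t (a x)) ∈ A := by
    intro t ht a ha
    obtain ⟨w, hw, rfl⟩ := Finset.mem_image.1 ha
    have h2 : A = (words T (j + 1)).image (res C) := hst
    rw [h2]
    exact Finset.mem_image.2 ⟨t * w, mem_words_succ.2 ⟨t, ht, w, hw, rfl⟩, rfl⟩
  have h1A : res C 1 ∈ A := by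
    refine Finset.mem_image_of_mem _ ?_
    have := hmono 0 j
    rw [zero_add] at this
    exact this (by rw [words]; exact Finset.mem_singleton_self _)
  have hA1 : 1 ≤ A.card := Finset.card_pos.2 ⟨_, h1A⟩
  refine ⟨spanV A, ?_, ?_⟩
  · intro x hx
    exact Submodule.subset_span ⟨_, h1A, ⟨x, hx⟩, rfl⟩
  · refine (stable_set hTA hB0 hB).trans ?_
    have h2 : (A.card : ℝ) ^ A.card ≤ (r : ℝ) ^ r := by
      have : A.card ^ A.card ≤ r ^ r :=
        (Nat.pow_le_pow_left hAc _).trans (Nat.pow_le_pow_right (hA1.trans hAc) hAc)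
      exact_mod_cast this
    have h3 : (A.card.factorial : ℝ) ^ 2 * B / 2 ≤ (r.factorial : ℝ) ^ 2 * B / 2 := by
      have : (A.card.factorial : ℝ) ≤ r.factorial := by exact_mod_cast Nat.factorial_le hAc
      have h4 : (A.card.factorial : ℝ) ^ 2 ≤ (r.factorial : ℝ) ^ 2 :=
        pow_le_pow_left₀ (by positivity) this 2
      nlinarith
    have h4 := mul_le_mul h2 h3 (by positivity) (by positivity)
    linarith

end

end Pool.Agent.H58.ST
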