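import Pool.Agent.H58.ST.Low
import Pool.Agent.H58.ST.Orbit

/-!
# Large codes of angle less than `π / 3` with symmetries of small rank
-/

set_option autoImplicit false
set_option linter.unusedSectionVars false

open Module
open scoped InnerProductSpace

namespace Pool.Agent.H58.ST

open Pool.Agent.H818R2 Pool.Agent.H161R2.KissSym

section

variable {n : ℕ}

/-- the linear map which permutes the coordinates by `π` and multiplies them by `s` -/
def spLin (π : Fin n → Fin n) (s : Fin n → ℝ) :
    EuclideanSpace ℝ (Fin n) →ₗ[ℝ] EuclideanSpace ℝ (Fin n) where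
  toFun x := WithLp.toLp 2 fun k => s k * x (π k)
  map_add' x y := by
    ext k
    simp [mul_add]
  map_smul' c x := by
    ext k
    simp only [PiLp.smul_apply, smul_eq_mul, RingHom.id_apply]
    ring

lemma spLin_apply (π : Fin n → Fin n) (s : Fin n → ℝ) (x : EuclideanSpace ℝ (Fin n)) (k : Fin n) :
    spLin π s x k = s k * x (π k) := rfl

/-- the isometry which permutes the coordinates by an involution and changes signs -/
noncomputable def spIso (π : Fin n → Fin n) (s : Fin n → ℝ) (hπ : ∀ k, π (π k) = k)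
    (hs : ∀ k, s k * s k = 1) (hsπ : ∀ k, s (π k) = s k) :
    EuclideanSpace ℝ (Fin n) ≃ₗᵢ[ℝ] EuclideanSpace ℝ (Fin n) where
  toLinearEquiv := LinearEquiv.ofInvolutive (spLin π s) (by
    intro x
    ext k
    rw [spLin_apply, spLin_apply, hπ, hsπ, ← mul_assoc, hs, one_mul])
  norm_map' x := by
    have h1 : ‖spLin π s x‖ ^ 2 = ‖x‖ ^ 2 := by
      rw [EuclideanSpace.norm_sq_eq, EuclideanSpace.norm_sq_eq]
      have h2 : ∀ k, ‖spLin π s x k‖ ^ 2 = ‖x (π k)‖ ^ 2 := by
        intro k
        rw [spLin_apply, norm_mul, mul_pow, Real.norm_eq_abs (s k), sq_abs, sq, hs, one_mul]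
      rw [Finset.sum_congr rfl fun k _ => h2 k]
      exact Equiv.sum_comp (⟨π, π, hπ, hπ⟩ : Equiv.Perm (Fin n)) fun k => ‖x k‖ ^ 2
    have h3 : ‖spLin π s x‖ = ‖x‖ := by
      have := sq_eq_sq₀ (norm_nonneg (spLin π s x)) (norm_nonneg x)
      exact this.1 h1
    exact h3

lemma spIso_apply (π : Fin n → Fin n) (s : Fin n → ℝ) (hπ : ∀ k, π (π k) = k)
    (hs : ∀ k, s k * s k = 1) (hsπ : ∀ k, s (π k) = s k) (x : EuclideanSpace ℝ (Fin n)) (k : Fin n) :
    spIso π s hπ hs hsπ x k = s k * x (π k) := rfl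

end

section

variable {n m p : ℕ} (e : Fin n ≃ (Fin m → Bool) ⊕ Fin p) (col : Fin p → Fin m)

/-- change the `i`-th sign -/
def flipAt (i : Fin m) (σ : Fin m → Bool) : Fin m → Bool := Function.update σ i (!σ i)

lemma flipAt_flipAt (i : Fin m) (σ : Fin m → Bool) : flipAt i (flipAt i σ) = σ := by
  funext j
  unfold flipAt
  by_cases h : j = i
  · subst h; simp
  · simp [h]

/-- the permutation of the coordinates -/
def piAt (i : Fin m) (k : Fin n) : Fin n :=
  match e k with
  | .inl τ => e.symm (.inl (flipAt i τ))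
  | .inr _ => k

/-- the signs of the coordinates -/
def sAt (i : Fin m) (k : Fin n) : ℝ :=
  match e k with
  | .inl _ => 1
  | .inr j => if col j = i then -1 else 1

lemma piAt_inl (i : Fin m) {k : Fin n} {τ : Fin m → Bool} (h : e k = .inl τ) :
    piAt e i k = e.symm (.inl (flipAt i τ)) := by
  unfold piAt
  rw [h]

lemma piAt_inr (i : Fin m) {k : Fin n} {j : Fin p} (h : e k = .inr j) : piAt e i k = k := by
  unfold piAt
  rw [h]

lemma sAt_inl (i : Fin m) {k : Fin n} {τ : Fin m → Bool} (h : e k = .inl τ) : sAt e col i k = 1 := by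
  unfold sAt
  rw [h]

lemma sAt_inr (i : Fin m) {k : Fin n} {j : Fin p} (h : e k = .inr j) :
    sAt e col i k = if col j = i then -1 else 1 := by
  unfold sAt
  rw [h]

lemma piAt_piAt (i : Fin m) (k : Fin n) : piAt e i (piAt e i k) = k := by
  rcases h : e k with τ | j
  · have h1 : e (piAt e i k) = .inl (flipAt i τ) := by
      rw [piAt_inl e i h, Equiv.apply_symm_apply]
    rw [piAt_inl e i h1, flipAt_flipAt, ← h, Equiv.symm_apply_apply]
  · rw [piAt_inr e i h, piAt_inr e i h]

lemma sAt_sq (i : Fin m) (k : Fin n) : sAt e col i k * sAt e col i k = 1 := by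
  rcases h : e k with τ | j
  · rw [sAt_inl e col i h]; norm_num
  · rw [sAt_inr e col i h]
    split_ifs <;> norm_num

lemma sAt_piAt (i : Fin m) (k : Fin n) : sAt e col i (piAt e i k) = sAt e col i k := by
  rcases h : e k with τ | j
  · have h1 : e (piAt e i k) = .inl (flipAt i τ) := by
      rw [piAt_inl e i h, Equiv.apply_symm_apply]
    rw [sAt_inl e col i h, sAt_inl e col i h1]
  · rw [piAt_inr e i h]

/-- the isometries -/
noncomputable def gAt (i : Fin m) : EuclideanSpace ℝ (Fin n) ≃ₗᵢ[ℝ] EuclideanSpace ℝ (Fin n) :=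
  spIso (piAt e i) (sAt e col i) (piAt_piAt e i) (sAt_sq e col i) (sAt_piAt e col i)

lemma gAt_apply (i : Fin m) (x : EuclideanSpace ℝ (Fin n)) (k : Fin n) :
    gAt e col i x k = sAt e col i k * x (piAt e i k) := rfl

/-- the signs of the coordinates of the points -/
def sg (σ : Fin m → Bool) (j : Fin p) : ℝ := if σ (col j) then -1 else 1

lemma sg_sq (σ : Fin m → Bool) (j : Fin p) : sg col σ j * sg col σ j = 1 := by
  unfold sg
  split_ifs <;> norm_num

lemma sg_flip (σ : Fin m → Bool) (i : Fin m) (j : Fin p) :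
    sg col (flipAt i σ) j = (if col j = i then -1 else 1) * sg col σ j := by
  unfold sg flipAt
  by_cases h : col j = i
  · subst h
    cases σ (col j) <;> simp
  · simp [h]

/-- the points -/
noncomputable def pt (σ : Fin m → Bool) (y : EuclideanSpace ℝ (Fin p)) : EuclideanSpace ℝ (Fin n) :=
  WithLp.toLp 2 fun k => match e k with
    | .inl τ => if τ = σ then 1 / √2 else 0
    | .inr j => sg col σ j * y j / √2

lemma pt_inl (σ : Fin m → Bool) (y : EuclideanSpace ℝ (Fin p)) {k : Fin n} {τ : Fin m → Bool}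
    (h : e k = .inl τ) : pt e col σ y k = if τ = σ then 1 / √2 else 0 := by
  change (match e k with
    | .inl τ => if τ = σ then 1 / √2 else 0
    | .inr j => sg col σ j * y j / √2) = _
  rw [h]

lemma pt_inr (σ : Fin m → Bool) (y : EuclideanSpace ℝ (Fin p)) {k : Fin n} {j : Fin p}
    (h : e k = .inr j) : pt e col σ y k = sg col σ j * y j / √2 := by
  change (match e k with
    | .inl τ => if τ = σ then 1 / √2 else 0
    | .inr j => sg col σ j * y j / √2) = _
  rw [h]

lemma gAt_pt (i : Fin m) (σ : Fin m → Bool) (y : EuclideanSpace ℝ (Fin p)) :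
    gAt e col i (pt e col σ y) = pt e col (flipAt i σ) y := by
  ext k
  rw [gAt_apply]
  rcases h : e k with τ | j
  · have h1 : e (piAt e i k) = .inl (flipAt i τ) := by
      rw [piAt_inl e i h, Equiv.apply_symm_apply]
    rw [sAt_inl e col i h, one_mul, pt_inl e col σ y h1, pt_inl e col _ y h]
    have h2 : flipAt i τ = σ ↔ τ = flipAt i σ := by
      constructor
      · rintro rfl; rw [flipAt_flipAt]
      · rintro rfl; rw [flipAt_flipAt]
    simp only [h2]
  · rw [sAt_inr e col i h, piAt_inr e i h, pt_inr e col σ y h, pt_inr e col _ y h, sg_flip]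
    ring

lemma inner_real (a b : ℝ) : ⟪a, b⟫_ℝ = a * b := by
  rw [RCLike.inner_apply, mul_comm]
  simp

lemma inner_pt (σ σ' : Fin m → Bool) (y y' : EuclideanSpace ℝ (Fin p)) :
    ⟪pt e col σ y, pt e col σ' y'⟫_ℝ =
      (if σ = σ' then 1 / 2 else 0) + 1 / 2 * ∑ j, sg col σ j * y j * (sg col σ' j * y' j) := by
  have h2 : √(2 : ℝ) * √2 = 2 := Real.mul_self_sqrt (by norm_num)
  have h3 : (1 / √2 : ℝ) * (1 / √2) = 1 / 2 := by
    rw [div_mul_div_comm, h2, one_mul]
  rw [PiLp.inner_apply]
  rw [← Equiv.sum_comp e.symm, Fintype.sum_sum_type]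
  congr 1
  · have h1 : ∀ τ, ⟪pt e col σ y (e.symm (.inl τ)), pt e col σ' y' (e.symm (.inl τ))⟫_ℝ =
        if τ = σ then (if σ = σ' then 1 / 2 else 0) else 0 := by
      intro τ
      rw [pt_inl e col σ y (Equiv.apply_symm_apply e _), pt_inl e col σ' y'
        (Equiv.apply_symm_apply e _)]
      by_cases h : τ = σ
      · subst h
        by_cases h' : τ = σ'
        · simp only [h', if_true, inner_real]
          exact h3
        · simp [h']
      · simp [h]
    rw [Finset.sum_congr rfl fun τ _ => h1 τ, Finset.sum_ite_eq' Finset.univ σ,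
      if_pos (Finset.mem_univ _)]
  · rw [Finset.mul_sum]
    refine Finset.sum_congr rfl fun j _ => ?_
    rw [pt_inr e col σ y (Equiv.apply_symm_apply e _), pt_inr e col σ' y'
      (Equiv.apply_symm_apply e _), inner_real]
    rw [div_mul_div_comm, h2]
    ring

lemma norm_pt (σ : Fin m → Bool) {y : EuclideanSpace ℝ (Fin p)} (hy : ‖y‖ = 1) :
    ‖pt e col σ y‖ = 1 := by
  have h1 : ‖pt e col σ y‖ ^ 2 = 1 := by
    rw [← real_inner_self_eq_norm_sq, inner_pt, if_pos rfl]
    have h2 : ∑ j, sg col σ j * y j * (sg col σ j * y j) = 1 := by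
      have h3 : ∀ j, sg col σ j * y j * (sg col σ j * y j) = ‖y j‖ ^ 2 := by
        intro j
        rw [Real.norm_eq_abs, sq_abs]
        calc sg col σ j * y j * (sg col σ j * y j) = (sg col σ j * sg col σ j) * y j ^ 2 := by ring
          _ = _ := by rw [sg_sq, one_mul]
      rw [Finset.sum_congr rfl fun j _ => h3 j, ← EuclideanSpace.norm_sq_eq, hy]
      norm_num
    rw [h2]
    norm_num
  nlinarith [norm_nonneg (pt e col σ y)]

lemma inner_same (σ : Fin m → Bool) (y y' : EuclideanSpace ℝ (Fin p)) :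
    ⟪pt e col σ y, pt e col σ y'⟫_ℝ = 1 / 2 + 1 / 2 * ⟪y, y'⟫_ℝ := by
  rw [inner_pt, if_pos rfl, PiLp.inner_apply]
  congr 2
  refine Finset.sum_congr rfl fun j _ => ?_
  rw [inner_real]
  calc sg col σ j * y j * (sg col σ j * y' j) = (sg col σ j * sg col σ j) * (y j * y' j) := by ring
    _ = _ := by rw [sg_sq, one_mul]

lemma inner_diff {σ σ' : Fin m → Bool} (h : σ ≠ σ') {y y' : EuclideanSpace ℝ (Fin p)}
    (hy : ‖y‖ = 1) (hy' : ‖y'‖ = 1) : ⟪pt e col σ y, pt e col σ' y'⟫_ℝ ≤ 1 / 2 := by
  rw [inner_pt, if_neg h, zero_add]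
  have h1 : ∑ j, sg col σ j * y j * (sg col σ' j * y' j) ≤ ∑ j, (‖y j‖ ^ 2 + ‖y' j‖ ^ 2) / 2 := by
    refine Finset.sum_le_sum fun j _ => ?_
    rw [Real.norm_eq_abs, Real.norm_eq_abs, sq_abs, sq_abs]
    have h2 : (sg col σ j * y j) ^ 2 = y j ^ 2 := by
      rw [mul_pow, sq (sg col σ j), sg_sq, one_mul]
    have h3 : (sg col σ' j * y' j) ^ 2 = y' j ^ 2 := by
      rw [mul_pow, sq (sg col σ' j), sg_sq, one_mul]
    nlinarith [sq_nonneg (sg col σ j * y j - sg col σ' j * y' j)]
  rw [← Finset.sum_div, Finset.sum_add_distrib, ← EuclideanSpace.norm_sq_eq,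
    ← EuclideanSpace.norm_sq_eq, hy, hy'] at h1
  linarith

/-- the coordinates which are fixed by `gAt i` -/
lemma gAt_single (i : Fin m) {k : Fin n} {j : Fin p} (h : e k = .inr j) (hj : col j ≠ i) :
    gAt e col i (EuclideanSpace.single k 1) = EuclideanSpace.single k 1 := by
  ext l
  rw [gAt_apply]
  by_cases hl : l = k
  · subst hl
    rw [sAt_inr e col i h, if_neg hj, one_mul, piAt_inr e i h]
  · have h1 : piAt e i l ≠ k := by
      intro h2
      apply hl
      have h3 := piAt_piAt e i l
      rw [h2, piAt_inr e i h] at h3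
      exact h3.symm
    simp [hl, h1]

/-- the fixed space of `gAt i` is large -/
lemma finrank_fix_ge (i : Fin m) :
    (Finset.univ.filter fun j : Fin p => col j ≠ i).card ≤ finrank ℝ (fixS {gAt e col i}) := by
  classical
  set f : {j : Fin p // col j ≠ i} → fixS {gAt e col i} := fun j =>
    ⟨EuclideanSpace.single (e.symm (.inr j.1)) 1, by
      rintro t rfl
      exact gAt_single e col i (Equiv.apply_symm_apply e _) j.2⟩ with hf
  have h1 : LinearIndependent ℝ f := by
    have h2 : Orthonormal ℝ fun j : {j : Fin p // col j ≠ i} =>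
        ((f j : EuclideanSpace ℝ (Fin n))) := by
      have h3 := (EuclideanSpace.basisFun (Fin n) ℝ).orthonormal.comp
        (fun j : {j : Fin p // col j ≠ i} => e.symm (.inr j.1)) (by
          intro j j' hjj
          have := e.symm.injective hjj
          exact Subtype.ext (Sum.inr_injective this))
      refine cast ?_ h3
      congr 1
      funext j
      simp [hf]
    exact LinearIndependent.of_comp (fixS {gAt e col i}).subtype h2.linearIndependent
  have h3 := h1.fintype_card_le_finrank
  rwa [Fintype.card_subtype] at h3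

/-- the trace of `gAt i` -/
lemma trace_gAt (i : Fin m) : LinearMap.trace ℝ (EuclideanSpace ℝ (Fin n))
    ((gAt e col i).toLinearEquiv : EuclideanSpace ℝ (Fin n) →ₗ[ℝ] EuclideanSpace ℝ (Fin n)) =
    ∑ j : Fin p, if col j = i then (-1 : ℝ) else 1 := by
  rw [LinearMap.trace_eq_sum_inner _ (EuclideanSpace.basisFun (Fin n) ℝ)]
  have h0 : ∀ k, ⟪(EuclideanSpace.basisFun (Fin n) ℝ) k,
      ((gAt e col i).toLinearEquiv : EuclideanSpace ℝ (Fin n) →ₗ[ℝ] EuclideanSpace ℝ (Fin n))
        ((EuclideanSpace.basisFun (Fin n) ℝ) k)⟫_ℝ =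
      sAt e col i k * (if piAt e i k = k then 1 else 0) := by
    intro k
    rw [EuclideanSpace.basisFun_apply]
    change ⟪EuclideanSpace.single k (1 : ℝ), gAt e col i (EuclideanSpace.single k 1)⟫_ℝ = _
    rw [EuclideanSpace.inner_single_left, gAt_apply]
    simp
  rw [Finset.sum_congr rfl fun k _ => h0 k, ← Equiv.sum_comp e.symm, Fintype.sum_sum_type]
  have h1 : ∀ τ : Fin m → Bool, sAt e col i (e.symm (.inl τ)) *
      (if piAt e i (e.symm (.inl τ)) = e.symm (.inl τ) then (1 : ℝ) else 0) = 0 := by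
    intro τ
    have h2 : piAt e i (e.symm (.inl τ)) ≠ e.symm (.inl τ) := by
      rw [piAt_inl e i (Equiv.apply_symm_apply e _)]
      intro h3
      have h4 := Sum.inl_injective (e.symm.injective h3)
      have h5 := congrFun h4 i
      unfold flipAt at h5
      simp at h5
    rw [if_neg h2, mul_zero]
  rw [Finset.sum_congr rfl fun τ _ => h1 τ, Finset.sum_const_zero, zero_add]
  refine Finset.sum_congr rfl fun j _ => ?_
  rw [sAt_inr e col i (Equiv.apply_symm_apply e _), piAt_inr e i (Equiv.apply_symm_apply e _),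
    if_pos rfl, mul_one]

/-- the common fixed space is small -/
lemma finrank_fix_all : finrank ℝ (fixS (Set.range (gAt e col))) ≤ 2 ^ m := by
  set f : fixS (Set.range (gAt e col)) →ₗ[ℝ] ((Fin m → Bool) → ℝ) :=
    { toFun := fun x τ => (x : EuclideanSpace ℝ (Fin n)) (e.symm (.inl τ))
      map_add' := fun x y => by funext τ; simp
      map_smul' := fun c x => by funext τ; simp } with hf
  have hinj : Function.Injective f := by
    rw [← LinearMap.ker_eq_bot, LinearMap.ker_eq_bot']
    rintro ⟨x, hx⟩ h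
    apply Subtype.ext
    ext k
    rcases hk : e k with τ | j
    · have h1 := congrFun h τ
      change x (e.symm (.inl τ)) = 0 at h1
      rw [← hk, Equiv.symm_apply_apply] at h1
      exact h1
    · have h1 := hx _ ⟨col j, rfl⟩
      have h2 := congrArg (fun z : EuclideanSpace ℝ (Fin n) => z k) h1
      simp only at h2
      rw [gAt_apply, sAt_inr e col _ hk, if_pos rfl, piAt_inr e _ hk] at h2
      change x k = 0
      linarith
  have h1 := LinearMap.finrank_le_finrank_of_injective hinj
  rw [Module.finrank_fintype_fun_eq_card] at h1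
  simpa using h1

end

end Pool.Agent.H58.ST
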