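import Pool.Agent.H58.ST.Sharp
import Pool.Graph.R_seed8.TH856.KL.Asym

/-!
# Kissing configurations
-/

set_option autoImplicit false
set_option linter.unusedSectionVars false

open Module Filter
open scoped InnerProductSpace

namespace Pool.Agent.H58.ST

open Pool.Agent.H818R2 Pool.Agent.H161R2.KissSym

/-- the exponent of the kissing numbers -/
noncomputable def cp : ℝ := limsup (fun d : ℕ => Real.logb 2 (kissing d) / d) atTop

lemma cp_ge : 83 / 400 ≤ cp := Pool.Agent.TH856.KL.cplus_ge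

lemma cp_le : cp ≤ 397 / 1000 := cplus_le

/-- the bound by the dimension of the fixed space -/
theorem kiss_growth {ε : ℝ} (hε : 0 < ε) :
    ∃ κ : ℝ, 0 < κ ∧ ∃ s : ℕ, ∀ᶠ n : ℕ in atTop, ∀ X : Finset (EuclideanSpace ℝ (Fin n)),
      IsSphCode n (Real.pi / 3) X →
      ∀ T : Set (EuclideanSpace ℝ (Fin n) ≃ₗᵢ[ℝ] EuclideanSpace ℝ (Fin n)),
      (∀ g ∈ T, (1 - κ) * n ≤ trc g ∧ n ^ s * misses X g ≤ X.card) →
      (X.card : ℝ) ≤ (2 : ℝ) ^ (cp * finrank ℝ (fixS T) + ε * n) := by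
  obtain ⟨κ, hκ, s, h⟩ := main_asym (θ := Real.pi / 3) le_rfl (by linarith [Real.pi_pos])
    (ε := ε / 3) (by positivity)
  refine ⟨κ, hκ, s, ?_⟩
  filter_upwards [h, Pool.Agent.TH856.KL.kiss_unif (ε / 3) (by positivity), eventually_ge_atTop 4,
    (tendsto_natCast_atTop_atTop (R := ℝ)).eventually_ge_atTop (12 / ε)]
    with n h1 h2 h4 h5 X hX T hT
  have h6 := h1 X hX T hT
  set d := finrank ℝ (fixS T) with hd
  have hdn : d ≤ n := by
    have := Submodule.finrank_le (fixS T)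
    rwa [finrank_euclideanSpace_fin] at this
  have h7 := h2 (max d 4) (max_le hdn h4)
  change (sphMax (max d 4) (Real.pi / 3) : ℝ) ≤ (2 : ℝ) ^ (cp * (max d 4 : ℕ) + ε / 3 * n) at h7
  have h8 := cp_ge
  have h9 := cp_le
  have h10 : ((max d 4 : ℕ) : ℝ) ≤ d + 4 := by
    rcases le_total d 4 with h | h
    · rw [max_eq_right h]
      push_cast
      linarith [(Nat.cast_nonneg d : (0 : ℝ) ≤ d)]
    · rw [max_eq_left h]
      linarith
  have h11 : 4 ≤ ε / 3 * n := by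
    have h5' := (div_le_iff₀ hε).1 h5
    linarith
  calc (X.card : ℝ) ≤ (2 : ℝ) ^ (ε / 3 * n) * sphMax (max d 4) (Real.pi / 3) := h6
    _ ≤ (2 : ℝ) ^ (ε / 3 * n) * (2 : ℝ) ^ (cp * (max d 4 : ℕ) + ε / 3 * n) :=
        mul_le_mul_of_nonneg_left h7 (by positivity)
    _ = (2 : ℝ) ^ (ε / 3 * n + (cp * (max d 4 : ℕ) + ε / 3 * n)) := by
        rw [← Real.rpow_add (by norm_num)]
    _ ≤ _ := by
        apply Real.rpow_le_rpow_of_exponent_le (by norm_num)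
        have h12 : cp * (max d 4 : ℕ) ≤ cp * (d + 4) :=
          mul_le_mul_of_nonneg_left h10 (by linarith)
        nlinarith

/-- near-optimal kissing configurations -/
theorem kiss_near {ε : ℝ} (hε : 0 < ε) :
    ∃ κ : ℝ, 0 < κ ∧ ∃ s : ℕ, ∀ᶠ n : ℕ in atTop, ∀ X : Finset (EuclideanSpace ℝ (Fin n)),
      IsSphCode n (Real.pi / 3) X → (2 : ℝ) ^ ((cp - κ) * n) ≤ X.card →
      ∀ T : Set (EuclideanSpace ℝ (Fin n) ≃ₗᵢ[ℝ] EuclideanSpace ℝ (Fin n)),
      (∀ g ∈ T, (1 - κ) * n ≤ trc g ∧ n ^ s * misses X g ≤ X.card) →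
      (1 - ε) * n ≤ finrank ℝ (fixS T) := by
  obtain ⟨κ, hκ, s, h⟩ := kiss_growth (ε := ε / 10) (by positivity)
  refine ⟨min κ (ε / 10), lt_min hκ (by positivity), s, ?_⟩
  filter_upwards [h] with n h1 X hX hXc T hT
  have hn0 : (0 : ℝ) ≤ n := Nat.cast_nonneg n
  have h2 := h1 X hX T fun g hg => ⟨le_trans (mul_le_mul_of_nonneg_right
    (by linarith [min_le_left κ (ε / 10)]) hn0) (hT g hg).1, (hT g hg).2⟩
  have h3 := hXc.trans h2
  rw [Real.rpow_le_rpow_left_iff (by norm_num)] at h3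
  have h4 := cp_ge
  have h5 := min_le_right κ (ε / 10)
  set d : ℝ := (finrank ℝ (fixS T) : ℝ)
  have h6 : cp * (n - d) ≤ ε / 5 * n := by nlinarith
  have h7 : 0 ≤ n - d := by
    have := Submodule.finrank_le (fixS T)
    rw [finrank_euclideanSpace_fin] at this
    have h8 : (finrank ℝ (fixS T) : ℝ) ≤ n := by exact_mod_cast this
    exact sub_nonneg.2 h8
  nlinarith

/-- a fixed space of small dimension -/
theorem kiss_half :
    ∃ κ : ℝ, 0 < κ ∧ ∃ s : ℕ, ∀ᶠ n : ℕ in atTop, ∀ X : Finset (EuclideanSpace ℝ (Fin n)),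
      IsSphCode n (Real.pi / 3) X →
      ∀ T : Set (EuclideanSpace ℝ (Fin n) ≃ₗᵢ[ℝ] EuclideanSpace ℝ (Fin n)),
      (∀ g ∈ T, (1 - κ) * n ≤ trc g ∧ n ^ s * misses X g ≤ X.card) →
      (finrank ℝ (fixS T) : ℝ) ≤ 13 / 25 * n →
      (X.card : ℝ) ≤ (2 : ℝ) ^ (-(n : ℝ) / 2000) * kissing n := by
  obtain ⟨κ, hκ, s, h⟩ := kiss_growth (ε := 1 / 2000) (by norm_num)
  refine ⟨κ, hκ, s, ?_⟩
  filter_upwards [h, eventually_gt_atTop 0] with n h1 hn X hX T hT hd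
  have hn0 : (0 : ℝ) < n := by exact_mod_cast hn
  have h2 := h1 X hX T hT
  have h3 := wyner' n hn
  have h4 := cp_ge
  have h5 := cp_le
  calc (X.card : ℝ) ≤ (2 : ℝ) ^ (cp * finrank ℝ (fixS T) + 1 / 2000 * n) := h2
    _ ≤ (2 : ℝ) ^ (-(n : ℝ) / 2000 + (83 / 400 : ℝ) * n) := by
        apply Real.rpow_le_rpow_of_exponent_le (by norm_num)
        have h6 : cp * finrank ℝ (fixS T) ≤ 397 / 1000 * (13 / 25 * n) :=
          mul_le_mul h5 hd (Nat.cast_nonneg _) (by norm_num)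
        linarith
    _ = (2 : ℝ) ^ (-(n : ℝ) / 2000) * (2 : ℝ) ^ ((83 / 400 : ℝ) * n) := by
        rw [Real.rpow_add (by norm_num)]
    _ ≤ _ := mul_le_mul_of_nonneg_left h3 (by positivity)

end Pool.Agent.H58.ST
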