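import Pool.Graph.R_seed8.H161R2.KissSym2

/-!
# Lower bound for spherical codes of all angles
-/

set_option autoImplicit false

open scoped InnerProductSpace
open Filter Topology MeasureTheory Metric

namespace Pool.Agent.H58.ST

open Pool.Agent.H818R2 Pool.Agent.H161R2.KissSym

/-- `1 ≤ A(n, θ) (sin θ) ^ n` -/
theorem one_le_sphMax {θ : ℝ} (hθ0 : Real.pi / 4 ≤ θ) (hθ1 : θ < Real.pi / 2) (n : ℕ) [NeZero n] :
    1 ≤ (sphMax n θ : ℝ) * Real.sin θ ^ n := by
  classical
  have hc2 : Real.cos θ ^ 2 ≤ 1 / 2 := by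
    have h1 : Real.cos θ ≤ Real.cos (Real.pi / 4) :=
      Real.cos_le_cos_of_nonneg_of_le_pi (by positivity) (by linarith [Real.pi_pos]) hθ0
    have h2 : Real.cos (Real.pi / 4) ^ 2 = 1 / 2 := by
      rw [Real.cos_pi_div_four, div_pow, Real.sq_sqrt (by norm_num)]
      norm_num
    rw [← h2]
    exact pow_le_pow_left₀ (Real.cos_nonneg_of_mem_Icc ⟨by linarith [Real.pi_pos], hθ1.le⟩) h1 2
  have hθ0 : 0 < θ := by linarith [Real.pi_pos]
  have hs : 0 < Real.sin (θ / 2) :=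
    Real.sin_pos_of_pos_of_lt_pi (by linarith) (by linarith [Real.pi_pos])
  have hs1 : 0 < Real.sin θ := Real.sin_pos_of_pos_of_lt_pi hθ0 (by linarith [Real.pi_pos])
  have hc : 0 < Real.cos θ := Real.cos_pos_of_mem_Ioo ⟨by linarith, hθ1⟩
  have hsc := Real.sin_sq_add_cos_sq θ
  obtain ⟨P, hP, hPc⟩ := Nat.sSup_mem (sph_nonempty n θ) (sph_bdd hs)
  change P.card = sphMax n θ at hPc
  have hn : 0 < n := Nat.pos_of_ne_zero (NeZero.ne n)
  have hc1 : Real.cos θ < 1 := by nlinarith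
  -- every unit vector is close to a code point
  have hcl : ∀ u : EuclideanSpace ℝ (Fin n), ‖u‖ = 1 → ∃ p ∈ P, Real.cos θ ≤ ⟪u, p⟫_ℝ := by
    intro u hu
    by_contra hcon
    push Not at hcon
    have hnot : u ∉ P := by
      intro h
      have := hcon u h
      rw [real_inner_self_eq_norm_sq, hu] at this
      linarith
    have hcode : IsSphCode n θ (insert u P) := by
      constructor
      · intro x hx
        rcases Finset.mem_insert.1 hx with rfl | hx
        · exact hu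
        · exact hP.1 x hx
      · intro x hx y hy hxy
        rcases Finset.mem_insert.1 hx with h | hx
        · rcases Finset.mem_insert.1 hy with h' | hy
          · exact absurd (h.trans h'.symm) hxy
          · rw [h]; exact (hcon y hy).le
        · rcases Finset.mem_insert.1 hy with h' | hy
          · rw [h', real_inner_comm]; exact (hcon x hx).le
          · exact hP.2 x hx y hy hxy
    have h1 := le_sphMax hs hcode
    rw [Finset.card_insert_of_notMem hnot, hPc] at h1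
    omega
  have hcov : closedBall (0 : EuclideanSpace ℝ (Fin n)) 1 ⊆
      ⋃ p ∈ P, closedBall (Real.cos θ • p) (Real.sin θ) := by
    intro x hx
    rw [mem_closedBall_zero_iff] at hx
    obtain ⟨u, hu, hxu⟩ : ∃ u : EuclideanSpace ℝ (Fin n), ‖u‖ = 1 ∧ x = ‖x‖ • u := by
      rcases eq_or_ne x 0 with h | h
      · have : Nontrivial (EuclideanSpace ℝ (Fin n)) := by
          have : Nonempty (Fin n) := ⟨⟨0, hn⟩⟩
          infer_instance
        obtain ⟨u, hu⟩ := exists_norm_eq (EuclideanSpace ℝ (Fin n)) (zero_le_one)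
        exact ⟨u, hu, by rw [h, norm_zero, zero_smul]⟩
      · have hx0 : ‖x‖ ≠ 0 := norm_ne_zero_iff.2 h
        refine ⟨‖x‖⁻¹ • x, ?_, ?_⟩
        · rw [norm_smul, norm_inv, norm_norm, inv_mul_cancel₀ hx0]
        · rw [smul_smul, mul_inv_cancel₀ hx0, one_smul]
    obtain ⟨p, hp, hup⟩ := hcl u hu
    simp only [Set.mem_iUnion]
    refine ⟨p, hp, ?_⟩
    rw [mem_closedBall, dist_eq_norm]
    apply le_of_sq_le_sq _ hs1.le
    rw [norm_sub_sq_real, inner_smul_right, norm_smul, hP.1 p hp, Real.norm_of_nonneg hc.le]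
    have h4 : ⟪x, p⟫_ℝ = ‖x‖ * ⟪u, p⟫_ℝ := by
      conv_lhs => rw [hxu]
      rw [inner_smul_left]
      simp
    rw [h4]
    have h5 : ‖x‖ * Real.cos θ ≤ ‖x‖ * ⟪u, p⟫_ℝ := mul_le_mul_of_nonneg_left hup (norm_nonneg _)
    have h6 := norm_nonneg x
    have h7 : Real.cos θ * (‖x‖ * Real.cos θ) ≤ Real.cos θ * (‖x‖ * ⟪u, p⟫_ℝ) :=
      mul_le_mul_of_nonneg_left h5 hc.le
    have h8 : 0 ≤ (1 - ‖x‖) * (‖x‖ + 1 - 2 * Real.cos θ ^ 2) :=
      mul_nonneg (by linarith) (by linarith)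
    nlinarith
  have hm : volume.real (closedBall (0 : EuclideanSpace ℝ (Fin n)) 1) ≤
      ∑ p ∈ P, volume.real (closedBall (Real.cos θ • p) (Real.sin θ)) := by
    refine (measureReal_mono hcov ?_).trans (measureReal_biUnion_finset_le _ _)
    exact ((measure_biUnion_lt_top P.finite_toSet
      (fun p _ => measure_closedBall_lt_top)).ne)
  rw [vol_closedBall _ (by norm_num)] at hm
  have h7 : ∀ p ∈ P, volume.real (closedBall (Real.cos θ • p) (Real.sin θ)) =
      Real.sin θ ^ n * vb (EuclideanSpace ℝ (Fin n)) := by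
    intro p _
    rw [vol_closedBall _ hs1.le, finrank_euclideanSpace_fin]
  rw [Finset.sum_congr rfl h7, Finset.sum_const, nsmul_eq_mul, one_pow, one_mul, hPc] at hm
  have hv := vb_pos (E := EuclideanSpace ℝ (Fin n))
  have h8 : 1 * vb (EuclideanSpace ℝ (Fin n)) ≤
      ((sphMax n θ : ℝ) * Real.sin θ ^ n) * vb (EuclideanSpace ℝ (Fin n)) := by
    rw [one_mul, mul_assoc]; exact hm
  exact le_of_mul_le_mul_right h8 hv

lemma sphMax_anti {θ θ' : ℝ} (h0 : 0 < θ) (h : θ ≤ θ') (h1 : θ' < Real.pi / 2) (n : ℕ) [NeZero n] :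
    sphMax n θ' ≤ sphMax n θ := by
  have hs : 0 < Real.sin (θ / 2) :=
    Real.sin_pos_of_pos_of_lt_pi (by linarith) (by linarith [Real.pi_pos])
  have hs' : 0 < Real.sin (θ' / 2) :=
    Real.sin_pos_of_pos_of_lt_pi (by linarith) (by linarith [Real.pi_pos])
  obtain ⟨P, hP, hPc⟩ := Nat.sSup_mem (sph_nonempty n θ') (sph_bdd hs')
  change P.card = sphMax n θ' at hPc
  rw [← hPc]
  refine le_sphMax hs ⟨hP.1, fun x hx y hy hxy => (hP.2 x hx y hy hxy).trans ?_⟩
  exact Real.cos_le_cos_of_nonneg_of_le_pi h0.le (by linarith [Real.pi_pos]) h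

/-- exponential lower bound -/
theorem exists_rate {θ : ℝ} (hθ0 : 0 < θ) (hθ1 : θ < Real.pi / 2) : ∃ c : ℝ, 1 < c ∧
    ∀ n : ℕ, 0 < n → c ^ n ≤ sphMax n θ := by
  set θ' := max θ (Real.pi / 4) with hθ'
  have h1 : θ' < Real.pi / 2 := max_lt hθ1 (by linarith [Real.pi_pos])
  have h2 : Real.pi / 4 ≤ θ' := le_max_right _ _
  have h3 : 0 < Real.sin θ' :=
    Real.sin_pos_of_pos_of_lt_pi (by linarith [Real.pi_pos]) (by linarith [Real.pi_pos])
  have h4 : Real.sin θ' < 1 := by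
    rw [← Real.sin_pi_div_two]
    exact Real.sin_lt_sin_of_lt_of_le_pi_div_two (by linarith [Real.pi_pos]) le_rfl h1
  refine ⟨(Real.sin θ')⁻¹, (one_lt_inv₀ h3).2 h4, fun n hn => ?_⟩
  have : NeZero n := ⟨hn.ne'⟩
  have h5 := one_le_sphMax h2 h1 n
  have h6 : (sphMax n θ' : ℝ) ≤ sphMax n θ := by
    exact_mod_cast sphMax_anti hθ0 (le_max_left _ _) h1 n
  refine le_trans ?_ h6
  rw [inv_pow, inv_le_iff_one_le_mul₀ (by positivity)]
  exact h5

end Pool.Agent.H58.ST
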