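import Pool.Agent.H58.ST.Class
import Pool.Graph.R_seed8.H161R2.KissSym2

/-!
# The counting
-/

set_option autoImplicit false
set_option linter.unusedSectionVars false

open Module
open scoped InnerProductSpace

namespace Pool.Agent.H58.ST

open Pool.Agent.H58.SK Pool.Agent.H818R2 Pool.Agent.H161R2.KissSym

lemma card_small_sub {ι : Type*} [DecidableEq ι] (H : Finset ι) (K : ℕ) :
    (H.powerset.filter (fun J => J.card ≤ K)).card ≤ (H.card + 1) ^ K := by
  classical
  have h : (H.powerset.filter (fun J => J.card ≤ K)) ⊆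
      (Fintype.piFinset fun _ : Fin K => Finset.insertNone H).image (fun f : Fin K → Option ι =>
        Finset.univ.biUnion (fun i => (f i).toFinset)) := by
    intro J hJ
    rw [Finset.mem_filter, Finset.mem_powerset] at hJ
    have hJ' := hJ.2
    rw [Finset.mem_image]
    refine ⟨fun i => J.toList[i.1]?, ?_, ?_⟩
    · rw [Fintype.mem_piFinset]
      intro i
      rw [Finset.mem_insertNone]
      intro a ha
      apply hJ.1
      have := List.mem_of_getElem? ha
      simpa using this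
    · ext a
      simp only [Finset.mem_biUnion, Finset.mem_univ, true_and, Option.mem_toFinset, Option.mem_def]
      constructor
      · rintro ⟨i, hi⟩
        have := List.mem_of_getElem? hi
        simpa using this
      · intro ha
        have hl : a ∈ J.toList := by simpa using ha
        obtain ⟨k, hk⟩ := List.mem_iff_getElem?.1 hl
        have hk' : k < J.toList.length := by
          by_contra hc
          rw [List.getElem?_eq_none (by omega)] at hk
          exact absurd hk (by simp)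
        rw [Finset.length_toList] at hk'
        exact ⟨⟨k, by omega⟩, hk⟩
  refine (Finset.card_le_card h).trans (Finset.card_image_le.trans ?_)
  rw [Fintype.card_piFinset]
  simp

section

variable {n : ℕ} {θ : ℝ} {X : Finset (EuclideanSpace ℝ (Fin n))}
  {T : Finset (EuclideanSpace ℝ (Fin n) ≃ₗᵢ[ℝ] EuclideanSpace ℝ (Fin n))}

lemma words_sm {B : ℝ} (hB0 : 0 ≤ B) (hB : ∀ t ∈ T, Sm t B) (j : ℕ) :
    ∀ w ∈ words T j, Sm w (4 ^ j * B) := by
  induction j with
  | zero =>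
    intro w hw
    rw [words, Finset.mem_singleton] at hw
    rw [hw]
    exact sm_one (by positivity)
  | succ j ih =>
    intro w hw
    obtain ⟨t, ht, v, hv, rfl⟩ := mem_words_succ.1 hw
    refine ((hB t ht).mul (ih v hv)).mono ?_
    have h1 : (1 : ℝ) ≤ 4 ^ j := one_le_pow₀ (by norm_num)
    rw [pow_succ]
    nlinarith

/-- the bound for the points which are mapped into `X` by the words of length `r` -/
theorem main_count (hs : 0 < Real.sin (θ / 2)) (hθ : Real.cos θ ≤ 1 / 2)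
    {X₀ : Finset (EuclideanSpace ℝ (Fin n))} (hX₀ : IsSphCode n θ X₀) (hXX : X ⊆ X₀)
    (h1T : 1 ∈ T) {r : ℕ} (hT : ∀ w ∈ words T r, ∀ x ∈ X, w x ∈ X₀) {a : ℝ} (ha : 0 < a) (ha' : a ≤ 1 / 1000)
    (hr : 1 / a + 1 ≤ r) {B : ℝ} (hB0 : 0 ≤ B) (hB : ∀ t ∈ T, Sm t B) {q k d : ℕ}
    (hq : 1 / a ^ 2 ≤ q) (hk : 4 ^ (r + 1) * B / a ^ 2 ≤ k)
    (hd : finrank ℝ (fixS (T : Set (EuclideanSpace ℝ (Fin n) ≃ₗᵢ[ℝ] EuclideanSpace ℝ (Fin n)))) +
      (r : ℝ) ^ r * ((r.factorial : ℝ) ^ 2 * B / 2) ≤ d) {M : ℝ} (hM : (sphMax d θ : ℝ) ≤ M)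
    (hM1 : 1 ≤ M) {t ρ : ℝ} (ht : 0 < t) (hta : 108 * a ≤ t ^ 2) (hρ : 0 < ρ)
    (hρt : 4 * t ^ 2 + ρ ^ 2 ≤ 1) (hM2 : 4 ≤ M * (t ^ 3 * ρ ^ (n - 1))) :
    (X.card : ℝ) ≤ (T.card ^ (2 * r) + 1 : ℝ) ^ q * (2 + 2 / a) ^ (q * k) * M := by
  classical
  have hX : IsSphCode n θ X := ⟨fun x hx => hX₀.1 x (hXX hx), fun x hx y hy hxy =>
    hX₀.2 x (hXX hx) y (hXX hy) hxy⟩
  have hXs : ∀ x ∈ X₀, ∀ y ∈ X₀, x ≠ y → 1 ≤ ‖x - y‖ := by
    intro x hx y hy hxy
    have h1 := hX₀.2 x hx y hy hxy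
    have h2 := norm_sub_sq_real x y
    rw [hX₀.1 x hx, hX₀.1 y hy] at h2
    have h3 : 1 ≤ ‖x - y‖ ^ 2 := by linarith
    by_contra hcon
    push Not at hcon
    nlinarith [norm_nonneg (x - y)]
  have hXi : ∀ x ∈ X, ∀ y ∈ X, x ≠ y → ⟪x, y⟫_ℝ ≤ 1 / 2 := fun x hx y hy hxy =>
    (hX.2 x hx y hy hxy).trans hθ
  set H : Finset (EuclideanSpace ℝ (Fin n) ≃ₗᵢ[ℝ] EuclideanSpace ℝ (Fin n)) := (words T r ×ˢ words T r).image fun p => p.1⁻¹ * p.2 with hH
  have hHm : ∀ g ∈ words T r, ∀ g' ∈ words T r, g⁻¹ * g' ∈ H := fun g hg g' hg' =>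
    Finset.mem_image.2 ⟨(g, g'), Finset.mem_product.2 ⟨hg, hg'⟩, rfl⟩
  have hHc : H.card ≤ T.card ^ (2 * r) := by
    refine Finset.card_image_le.trans ?_
    rw [Finset.card_product, two_mul, pow_add]
    exact Nat.mul_le_mul (words_card T r) (words_card T r)
  have hHsm : ∀ h ∈ H, Sm h (4 ^ (r + 1) * B) := by
    intro h hh
    obtain ⟨⟨g, g'⟩, hg, rfl⟩ := Finset.mem_image.1 hh
    rw [Finset.mem_product] at hg
    refine ((words_sm hB0 hB r g hg.1).inv.mul (words_sm hB0 hB r g' hg.2)).mono ?_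
    rw [pow_succ]
    linarith
  -- the subspaces
  have hV : ∀ h : EuclideanSpace ℝ (Fin n) ≃ₗᵢ[ℝ] EuclideanSpace ℝ (Fin n), ∃ V : Submodule ℝ (EuclideanSpace ℝ (Fin n)), h ∈ H → (finrank ℝ V ≤ k ∧
      ∀ x ∈ Vᗮ, ‖h x - x‖ ≤ a * ‖x‖) := by
    intro h
    by_cases hh : h ∈ H
    · obtain ⟨V, hV1, hV2⟩ := exists_big (hHsm h hh) ha
      refine ⟨V, fun _ => ⟨?_, hV2⟩⟩
      have h1 : (finrank ℝ V : ℝ) ≤ k := by
        refine le_trans ?_ hk
        rw [le_div_iff₀ (by positivity)]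
        exact hV1
      exact_mod_cast h1
    · exact ⟨⊥, fun h' => absurd h' hh⟩
  choose V hV using hV
  -- the choice of few elements
  have hS : ∀ x : EuclideanSpace ℝ (Fin n), ∃ S : Finset (EuclideanSpace ℝ (Fin n) ≃ₗᵢ[ℝ] EuclideanSpace ℝ (Fin n)), x ∈ X → (S ⊆ H ∧ (S.card : ℝ) * a ^ 2 ≤ 1 ∧
      ∀ h ∈ H, ‖(V h).starProjection (x - (sumV V S).starProjection x)‖ < a) := by
    intro x
    by_cases hx : x ∈ X
    · obtain ⟨S, h1, h2, h3⟩ := exists_few V H (hX.1 x hx) ha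
      exact ⟨S, fun _ => ⟨h1, h2, h3⟩⟩
    · exact ⟨∅, fun h' => absurd h' hx⟩
  choose S hS using hS
  have hScard : ∀ x ∈ X, (S x).card ≤ q := by
    intro x hx
    have h1 : ((S x).card : ℝ) ≤ q := by
      refine le_trans ?_ hq
      rw [le_div_iff₀ (by positivity)]
      exact (hS x hx).2.1
    exact_mod_cast h1
  -- the classes
  have hclass : ∀ (S₀ : Finset (EuclideanSpace ℝ (Fin n) ≃ₗᵢ[ℝ] EuclideanSpace ℝ (Fin n))) (z : EuclideanSpace ℝ (Fin n)), ‖z‖ ≤ 1 →
      (((X.filter fun x => S x = S₀).filter fun x =>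
        ‖(sumV V S₀).starProjection x - z‖ < a).card : ℝ) ≤ M := by
    intro S₀ z hz
    set C := (X.filter fun x => S x = S₀).filter fun x =>
      ‖(sumV V S₀).starProjection x - z‖ < a with hC
    have hCX : C ⊆ X := fun x hx => (Finset.mem_filter.1 (Finset.mem_filter.1 hx).1).1
    have hCc : IsClass T r V (sumV V S₀) z a C := by
      constructor
      · intro x hx
        exact (Finset.mem_filter.1 hx).2.le
      · intro x hx g hg g' hg'
        have h1 := (hS x (hCX hx)).2.2 _ (hHm g hg g' hg')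
        rw [(Finset.mem_filter.1 (Finset.mem_filter.1 hx).1).2] at h1
        exact h1.le
    rcases le_or_gt (‖z‖ ^ 2) ((1 - 5 * a) ^ 2 / 2 - a) with hcase | hcase
    · obtain ⟨P, hP1, hP2⟩ := class_short hX₀.1 hXs (fun w hw x hx => hT w hw x (hCX hx)) ha ha'
        (fun g hg g' hg' => (hV _ (hHm g hg g' hg')).2) hCc (hCX.trans hXX) h1T hr hz hcase hB0 hB
      have h1 : C.card ≤ sphMax (finrank ℝ P) θ := card_le_sub hs P
        ⟨fun x hx => hX.1 x (hCX hx), fun x hx y hy hxy => hX.2 x (hCX hx) y (hCX hy) hxy⟩ hP1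
      have h2 : finrank ℝ P ≤ d := by exact_mod_cast hP2.trans hd
      refine le_trans ?_ hM
      exact_mod_cast h1.trans (sphMax_mono hs h2)
    · rcases class_long (fun x hx => hX.1 x (hCX hx))
        (fun x hx y hy hxy => hXi x (hCX hx) y (hCX hy) hxy) ha ha' hCc.near hz hcase ht hta hρ.le
        hρt with h1 | h1
      · refine le_trans ?_ hM1
        exact_mod_cast h1
      · rw [finrank_euclideanSpace_fin] at h1
        have h2 : 0 < t ^ 3 * ρ ^ (n - 1) := by positivity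
        exact le_of_mul_le_mul_right (h1.trans hM2) h2
  -- the points with given `S`
  have hfib : ∀ S₀ : Finset (EuclideanSpace ℝ (Fin n) ≃ₗᵢ[ℝ] EuclideanSpace ℝ (Fin n)), S₀ ⊆ H → S₀.card ≤ q →
      ((X.filter fun x => S x = S₀).card : ℝ) ≤ (2 + 2 / a) ^ (q * k) * M := by
    intro S₀ hS₀ hS₀c
    set Z := sumV V S₀ with hZ
    set D := X.filter fun x => S x = S₀ with hD
    have hpr : ∀ x ∈ D, ‖Z.starProjection x‖ ≤ 1 := by
      intro x hx
      have h1 := hX.1 x (Finset.mem_filter.1 hx).1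
      have h2 : ‖Z.starProjection x‖ ≤ ‖x‖ := by
        have h3 := norm_proj_mono (le_top : Z ≤ ⊤) x
        rw [Submodule.starProjection_top'] at h3
        exact h3
      rwa [h1] at h2
    obtain ⟨Y, hY1, hY2, hY3⟩ := exists_net Z (D.image fun x => Z.starProjection x)
      (by
        intro p hp
        obtain ⟨x, hx, rfl⟩ := Finset.mem_image.1 hp
        exact ⟨Submodule.starProjection_apply_mem _ _, hpr x hx⟩) ha
    have h1 : D ⊆ Y.biUnion fun y => D.filter fun x => ‖Z.starProjection x - y‖ < a := by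
      intro x hx
      obtain ⟨y, hy, hxy⟩ := hY3 _ (Finset.mem_image_of_mem _ hx)
      rw [Finset.mem_biUnion]
      exact ⟨y, hy, Finset.mem_filter.2 ⟨hx, hxy⟩⟩
    have h2 : (D.card : ℝ) ≤ ∑ y ∈ Y, ((D.filter fun x => ‖Z.starProjection x - y‖ < a).card : ℝ) := by
      have := (Finset.card_le_card h1).trans Finset.card_biUnion_le
      exact_mod_cast this
    refine h2.trans ?_
    have h3 : ∀ y ∈ Y, ((D.filter fun x => ‖Z.starProjection x - y‖ < a).card : ℝ) ≤ M := by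
      intro y hy
      obtain ⟨x, hx, hxy⟩ := Finset.mem_image.1 (hY1 hy)
      exact hclass S₀ y (by rw [← hxy]; exact hpr x hx)
    refine (Finset.sum_le_sum h3).trans ?_
    rw [Finset.sum_const, nsmul_eq_mul]
    refine mul_le_mul_of_nonneg_right (hY2.trans ?_) (by linarith)
    apply pow_le_pow_right₀
    · have : 0 < 2 / a := by positivity
      linarith
    · refine (finrank_sumV V S₀ (k := k) fun h hh => (hV h (hS₀ hh)).1).trans ?_
      exact Nat.mul_le_mul_right _ hS₀c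
  -- the sum
  set 𝒮 := H.powerset.filter fun J => J.card ≤ q with h𝒮
  have h1 : X ⊆ 𝒮.biUnion fun S₀ => X.filter fun x => S x = S₀ := by
    intro x hx
    rw [Finset.mem_biUnion]
    refine ⟨S x, ?_, Finset.mem_filter.2 ⟨hx, rfl⟩⟩
    rw [h𝒮, Finset.mem_filter, Finset.mem_powerset]
    exact ⟨(hS x hx).1, hScard x hx⟩
  have h2 : (X.card : ℝ) ≤ ∑ S₀ ∈ 𝒮, ((X.filter fun x => S x = S₀).card : ℝ) := by
    have := (Finset.card_le_card h1).trans Finset.card_biUnion_le
    exact_mod_cast this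
  refine h2.trans ?_
  have h3 : ∀ S₀ ∈ 𝒮, ((X.filter fun x => S x = S₀).card : ℝ) ≤ (2 + 2 / a) ^ (q * k) * M := by
    intro S₀ hS₀
    rw [h𝒮, Finset.mem_filter, Finset.mem_powerset] at hS₀
    exact hfib S₀ hS₀.1 hS₀.2
  refine (Finset.sum_le_sum h3).trans ?_
  rw [Finset.sum_const, nsmul_eq_mul, mul_assoc]
  refine mul_le_mul_of_nonneg_right ?_ (by positivity)
  have h4 := (card_small_sub H q).trans (Nat.pow_le_pow_left (Nat.add_le_add_right hHc 1) q)
  exact_mod_cast h4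

end

end Pool.Agent.H58.ST
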