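import Pool.Agent.H58.ST.Example
import Pool.Agent.H58.ST.Asym

/-!
# Angles less than `π / 3`
-/

set_option autoImplicit false
set_option linter.unusedSectionVars false

open Module Filter
open scoped InnerProductSpace

namespace Pool.Agent.H58.ST

open Pool.Agent.H818R2 Pool.Agent.H161R2.KissSym

/-- the colour of a coordinate -/
def colOf (m p : ℕ) (hm : 0 < m) (j : Fin p) : Fin m :=
  ⟨j / (p / m + 1), by
    rw [Nat.div_lt_iff_lt_mul (Nat.succ_pos _)]
    have h1 := Nat.lt_div_mul_add (a := p) hm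
    have h2 := j.2
    have h3 : m * (p / m).succ = p / m * m + m := by rw [Nat.mul_succ, mul_comm]
    omega⟩

lemma card_col (m p : ℕ) (hm : 0 < m) (i : Fin m) :
    (Finset.univ.filter fun j : Fin p => colOf m p hm j = i).card ≤ p / m + 1 := by
  classical
  set d := p / m + 1 with hd
  have h1 : (Finset.univ.filter fun j : Fin p => colOf m p hm j = i).card ≤
      (Finset.range d).card := by
    apply Finset.card_le_card_of_injOn (fun j : Fin p => (j : ℕ) % d)
    · intro j _
      rw [Finset.mem_coe, Finset.mem_range]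
      exact Nat.mod_lt _ (Nat.succ_pos _)
    · intro j hj j' hj' h
      rw [Finset.mem_coe, Finset.mem_filter] at hj hj'
      have h2 : (j : ℕ) / d = i := congrArg Fin.val hj.2
      have h3 : (j' : ℕ) / d = i := congrArg Fin.val hj'.2
      have h4 : (j : ℕ) % d = (j' : ℕ) % d := h
      apply Fin.ext
      rw [← Nat.div_add_mod (j : ℕ) d, ← Nat.div_add_mod (j' : ℕ) d, h2, h3, h4]
  rwa [Finset.card_range] at h1

/-- the example -/
theorem example_code {θ : ℝ} (h0 : 0 < θ) (h1 : θ < Real.pi / 3) : ∃ η : ℝ, 0 < η ∧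
    ∀ κ : ℝ, 0 < κ → ∃ C : ℕ, ∀ᶠ n : ℕ in atTop, ∃ (X : Finset (EuclideanSpace ℝ (Fin n)))
      (T : Set (EuclideanSpace ℝ (Fin n) ≃ₗᵢ[ℝ] EuclideanSpace ℝ (Fin n))), IsSphCode n θ X ∧
      (∀ g ∈ T, (1 - κ) * n ≤ finrank ℝ (fixS {g}) ∧ (1 - κ) * n ≤ trc g ∧ ∀ x ∈ X, g x ∈ X) ∧
      finrank ℝ (fixS T) ≤ C ∧ (2 : ℝ) ^ (η * n) ≤ X.card := by
  have hcos : 1 / 2 < Real.cos θ := by
    rw [← Real.cos_pi_div_three]
    exact Real.cos_lt_cos_of_nonneg_of_le_pi h0.le (by linarith [Real.pi_pos]) h1
  have hcos1 : Real.cos θ < 1 := by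
    rw [← Real.cos_zero]
    exact Real.cos_lt_cos_of_nonneg_of_le_pi le_rfl (by linarith [Real.pi_pos]) h0
  set θ' := Real.arccos (2 * Real.cos θ - 1) with hθ'
  have hc' : Real.cos θ' = 2 * Real.cos θ - 1 := Real.cos_arccos (by linarith) (by linarith)
  have h0' : 0 < θ' := by
    rw [hθ', Real.arccos_pos]
    linarith
  have h1' : θ' < Real.pi / 2 := by
    rw [hθ', Real.arccos_lt_pi_div_two]
    linarith
  have hs' : 0 < Real.sin (θ' / 2) :=
    Real.sin_pos_of_pos_of_lt_pi (by linarith) (by linarith [Real.pi_pos])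
  obtain ⟨c, hc, hrate⟩ := exists_rate h0' h1'
  have hlc : 0 < Real.logb 2 c := Real.logb_pos (by norm_num) hc
  refine ⟨Real.logb 2 c / 2, by positivity, fun κ hκ => ?_⟩
  obtain ⟨m, hm⟩ := exists_nat_gt (4 / κ)
  have hm0 : (0 : ℝ) < m := lt_trans (by positivity) hm
  have hm0' : 0 < m := by exact_mod_cast hm0
  refine ⟨2 ^ m, ?_⟩
  have hev : ∀ᶠ n : ℕ in atTop, ((2 : ℝ) ^ m + 2) * (2 / κ) ≤ n :=
    tendsto_natCast_atTop_atTop.eventually_ge_atTop _
  filter_upwards [hev, eventually_gt_atTop (2 * 2 ^ m)] with n hn hn2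
  have hn0 : (0 : ℝ) < n := by
    have : 0 < n := by omega
    exact_mod_cast this
  classical
  set p := n - 2 ^ m with hp
  have hp0 : 0 < p := by omega
  have hpn : (p : ℝ) = n - 2 ^ m := by
    rw [hp, Nat.cast_sub (by omega)]
    push_cast
    ring
  have hcard : Fintype.card (Fin n) = Fintype.card ((Fin m → Bool) ⊕ Fin p) := by
    rw [Fintype.card_sum, Fintype.card_fun, Fintype.card_fin, Fintype.card_fin, Fintype.card_fin,
      Fintype.card_bool]
    omega
  set e := Fintype.equivOfCardEq hcard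
  set col := colOf m p hm0' with hcol
  have : NeZero p := ⟨hp0.ne'⟩
  obtain ⟨Y, hY, hYc⟩ := Nat.sSup_mem (sph_nonempty p θ') (sph_bdd hs')
  change Y.card = sphMax p θ' at hYc
  set X : Finset (EuclideanSpace ℝ (Fin n)) :=
    ((Finset.univ : Finset (Fin m → Bool)) ×ˢ Y).image fun q => pt e col q.1 q.2 with hX
  -- the size of the classes
  have hd : ((p / m + 1 : ℕ) : ℝ) ≤ n / m + 1 := by
    rw [Nat.cast_add, Nat.cast_one]
    have h2 : ((p / m : ℕ) : ℝ) ≤ (p : ℝ) / m := Nat.cast_div_le
    have h3 : (p : ℝ) / m ≤ n / m := by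
      apply div_le_div_of_nonneg_right _ hm0.le
      rw [hpn]
      have : (0 : ℝ) < 2 ^ m := by positivity
      linarith
    linarith
  have hnm : 2 * (n / m : ℝ) ≤ κ / 2 * n := by
    have h2 : 4 < κ * m := by
      rw [div_lt_iff₀ hκ] at hm
      linarith
    rw [← mul_div_assoc, div_le_iff₀ hm0]
    nlinarith
  have hn' : (2 : ℝ) ^ m + 2 ≤ κ / 2 * n := by
    have h2 : ((2 : ℝ) ^ m + 2) * (2 / κ) * (κ / 2) ≤ n * (κ / 2) :=
      mul_le_mul_of_nonneg_right hn (by positivity)
    have h3 : ((2 : ℝ) ^ m + 2) * (2 / κ) * (κ / 2) = (2 : ℝ) ^ m + 2 := by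
      field_simp
    linarith
  have hclass : ∀ i : Fin m, ((Finset.univ.filter fun j : Fin p => col j = i).card : ℝ) ≤
      n / m + 1 := fun i => by
    have h2 := card_col m p hm0' i
    have h3 : ((Finset.univ.filter fun j : Fin p => col j = i).card : ℝ) ≤
      ((p / m + 1 : ℕ) : ℝ) := by exact_mod_cast h2
    exact h3.trans hd
  have hcount : ∀ i : Fin m, ((Finset.univ.filter fun j : Fin p => col j ≠ i).card : ℝ) =
      p - (Finset.univ.filter fun j : Fin p => col j = i).card := fun i => by
    have h2 := Finset.card_filter_add_card_filter_not (s := (Finset.univ : Finset (Fin p)))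
      (fun j => col j = i)
    rw [Finset.card_univ, Fintype.card_fin] at h2
    have h3 : ((Finset.univ.filter fun j : Fin p => col j = i).card : ℝ) +
      (Finset.univ.filter fun j : Fin p => ¬ col j = i).card = p := by exact_mod_cast h2
    change ((Finset.univ.filter fun j : Fin p => ¬ col j = i).card : ℝ) = _
    linarith
  refine ⟨X, Set.range (gAt e col), ⟨?_, ?_⟩, ?_, finrank_fix_all e col, ?_⟩
  · intro x hx
    obtain ⟨⟨σ, y⟩, hq, rfl⟩ := Finset.mem_image.1 hx
    exact norm_pt e col σ (hY.1 y (Finset.mem_product.1 hq).2)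
  · intro x hx x' hx' hne
    obtain ⟨⟨σ, y⟩, hq, rfl⟩ := Finset.mem_image.1 hx
    obtain ⟨⟨σ', y'⟩, hq', rfl⟩ := Finset.mem_image.1 hx'
    have hy := (Finset.mem_product.1 hq).2
    have hy' := (Finset.mem_product.1 hq').2
    by_cases h : σ = σ'
    · subst h
      have hyy : y ≠ y' := fun h => hne (by simp only [h])
      simp only
      rw [inner_same]
      have h2 := hY.2 y hy y' hy' hyy
      rw [hc'] at h2
      linarith
    · exact (inner_diff e col h (hY.1 y hy) (hY.1 y' hy')).trans hcos.le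
  · rintro _ ⟨i, rfl⟩
    refine ⟨?_, ?_, ?_⟩
    · have h2 : ((Finset.univ.filter fun j : Fin p => col j ≠ i).card : ℝ) ≤
          finrank ℝ (fixS {gAt e col i}) := by exact_mod_cast finrank_fix_ge e col i
      refine le_trans ?_ h2
      rw [hcount i, hpn]
      have h3 := hclass i
      have : (0 : ℝ) ≤ n / m := by positivity
      linarith
    · rw [trc, trace_gAt]
      have h2 : ∑ j : Fin p, (if col j = i then (-1 : ℝ) else 1) =
          p - 2 * (Finset.univ.filter fun j : Fin p => col j = i).card := by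
        have h3 : ∀ j : Fin p, (if col j = i then (-1 : ℝ) else 1) =
            1 - 2 * (if col j = i then (1 : ℝ) else 0) := by
          intro j
          split_ifs <;> norm_num
        rw [Finset.sum_congr rfl fun j _ => h3 j, Finset.sum_sub_distrib, ← Finset.mul_sum,
          Finset.sum_boole]
        simp
      rw [h2, hpn]
      have h3 := hclass i
      linarith
    · intro x hx
      obtain ⟨⟨σ, y⟩, hq, rfl⟩ := Finset.mem_image.1 hx
      simp only
      rw [gAt_pt]
      exact Finset.mem_image.2 ⟨(flipAt i σ, y), Finset.mem_product.2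
        ⟨Finset.mem_univ _, (Finset.mem_product.1 hq).2⟩, rfl⟩
  · -- the number of points
    have h2 : Y.card ≤ X.card := by
      apply Finset.card_le_card_of_injOn (fun y => pt e col (fun _ => false) y)
      · intro y hy
        exact Finset.mem_coe.2 (Finset.mem_image.2 ⟨(fun _ => false, y), Finset.mem_product.2
          ⟨Finset.mem_univ _, hy⟩, rfl⟩)
      · intro y hy y' hy' h
        by_contra hne
        have h3 : ⟪pt e col (fun _ => false) y, pt e col (fun _ => false) y'⟫_ℝ = 1 := by
          have h4 : pt e col (fun _ => false) y = pt e col (fun _ => false) y' := h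
          rw [h4, real_inner_self_eq_norm_sq, norm_pt e col _ (hY.1 y' hy')]
          norm_num
        rw [inner_same] at h3
        have h5 := hY.2 y hy y' hy' hne
        rw [hc'] at h5
        linarith
    have h3 : (sphMax p θ' : ℝ) ≤ X.card := by
      rw [← hYc]
      exact_mod_cast h2
    refine le_trans ?_ ((hrate p hp0).trans h3)
    have h4 : c ^ p = (2 : ℝ) ^ (Real.logb 2 c * p) := by
      rw [Real.rpow_mul (by norm_num), Real.rpow_logb (by norm_num) (by norm_num) (by linarith),
        Real.rpow_natCast]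
    rw [h4]
    apply Real.rpow_le_rpow_of_exponent_le (by norm_num)
    rw [hpn]
    have h5 : (2 * 2 ^ m : ℝ) ≤ n := by exact_mod_cast hn2.le
    nlinarith

end Pool.Agent.H58.ST
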