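import Pool.Graph.R_seed8.H818R2.Rankin
import Pool.Graph.R_seed8.H818R2.Sph

/-!
# Codes with small inner products, and nets
-/

set_option autoImplicit false

open MeasureTheory Metric Module
open scoped InnerProductSpace ENNReal

namespace Pool.Agent.H58.ST

open Pool.Agent.H818R2

section

variable {E : Type*} [NormedAddCommGroup E] [InnerProductSpace ℝ E] [FiniteDimensional ℝ E]

/-- few points of a code with small inner products are in a cap -/
lemma cap_count {X : Finset E} (hX : ∀ x ∈ X, ‖x‖ = 1) {α t : ℝ} (hα : 0 ≤ α)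
    (hin : ∀ x ∈ X, ∀ y ∈ X, x ≠ y → ⟪x, y⟫_ℝ ≤ α) (ht : 0 ≤ t) {z : E} (hz : ‖z‖ ≤ 1)
    (hzt : ∀ x ∈ X, t ≤ ⟪x, z⟫_ℝ) : (X.card : ℝ) * (t ^ 2 - α) ≤ 1 := by
  classical
  rcases X.eq_empty_or_nonempty with h0 | h0
  · rw [h0]; simp
  have hc : (0 : ℝ) < X.card := by exact_mod_cast h0.card_pos
  have h1 : ‖∑ x ∈ X, x‖ ^ 2 ≤ X.card + (X.card : ℝ) ^ 2 * α := by
    rw [← real_inner_self_eq_norm_sq, sum_inner]
    have h2 : ∀ x ∈ X, ⟪x, ∑ y ∈ X, y⟫_ℝ ≤ 1 + X.card * α := by
      intro x hx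
      rw [inner_sum]
      have h3 : ∀ y ∈ X, ⟪x, y⟫_ℝ ≤ α + (if y = x then 1 else 0) := by
        intro y hy
        split_ifs with h
        · rw [h, real_inner_self_eq_norm_sq, hX x hx]
          linarith
        · rw [add_zero]
          exact hin x hx y hy fun h' => h h'.symm
      refine (Finset.sum_le_sum h3).trans ?_
      rw [Finset.sum_add_distrib, Finset.sum_const, Finset.sum_ite_eq' X x, if_pos hx,
        nsmul_eq_mul]
      linarith
    refine (Finset.sum_le_sum h2).trans (le_of_eq ?_)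
    rw [Finset.sum_const, nsmul_eq_mul]
    ring
  have h2 : X.card * t ≤ ⟪∑ x ∈ X, x, z⟫_ℝ := by
    rw [sum_inner, ← nsmul_eq_mul, ← Finset.sum_const]
    exact Finset.sum_le_sum hzt
  have h3 : ⟪∑ x ∈ X, x, z⟫_ℝ ≤ ‖∑ x ∈ X, x‖ := by
    refine (real_inner_le_norm _ _).trans ?_
    nlinarith [norm_nonneg (∑ x ∈ X, x)]
  have h4 : (X.card * t) ^ 2 ≤ X.card + (X.card : ℝ) ^ 2 * α := by
    refine le_trans ?_ h1
    exact pow_le_pow_left₀ (by positivity) (h2.trans h3) 2
  have h5 : X.card * (X.card * (t ^ 2 - α)) ≤ (X.card : ℝ) * 1 := by nlinarith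
  exact le_of_mul_le_mul_left h5 hc

variable [MeasurableSpace E] [BorelSpace E]

/-- codes with inner products at most `t ^ 2 / 2` -/
theorem small_code {X : Finset E} (hX : ∀ x ∈ X, ‖x‖ = 1) {t ρ : ℝ} (ht : 0 < t) (hρ : 0 ≤ ρ)
    (hρt : 4 * t ^ 2 + ρ ^ 2 ≤ 1) (hin : ∀ x ∈ X, ∀ y ∈ X, x ≠ y → ⟪x, y⟫_ℝ ≤ t ^ 2 / 2) :
    (X.card : ℝ) * (t ^ 3 * ρ ^ (finrank ℝ E - 1)) ≤ 4 := by
  classical
  set K : E → Set E := fun x => {z : E | (t ≤ ⟪x, z⟫_ℝ ∧ ⟪x, z⟫_ℝ ≤ 2 * t) ∧
    ‖z‖ ^ 2 - ⟪x, z⟫_ℝ ^ 2 ≤ ρ ^ 2} with hK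
  have hKm : ∀ x, MeasurableSet (K x) := by
    intro x
    apply IsClosed.measurableSet
    have hc : Continuous fun z : E => ⟪x, z⟫_ℝ := continuous_const.inner continuous_id
    exact ((isClosed_le continuous_const hc).inter (isClosed_le hc continuous_const)).inter
      (isClosed_le ((continuous_norm.pow 2).sub (hc.pow 2)) continuous_const)
  have hKb : ∀ x, K x ⊆ closedBall 0 1 := by
    rintro x z ⟨⟨h1, h2⟩, h3⟩
    rw [mem_closedBall, dist_zero_right]
    have h4 : ⟪x, z⟫_ℝ ^ 2 ≤ (2 * t) ^ 2 := pow_le_pow_left₀ (by linarith) h2 2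
    nlinarith [norm_nonneg z]
  have hvol : ∀ x ∈ X, t * ρ ^ (finrank ℝ E - 1) * (vb E / 2) ≤ volume.real (K x) := by
    intro x hx
    have h := cyl_vol (hX x hx) (a := t) (b := 2 * t) (ρ := ρ) (by linarith) hρ
    rw [show 2 * t - t = t by ring] at h
    exact h
  have hfin : ∀ x, volume (K x) ≠ ⊤ := fun x =>
    ((measure_mono (hKb x)).trans_lt measure_closedBall_lt_top).ne
  have h1 : ∑ x ∈ X, volume (K x) ≤ ENNReal.ofReal (2 / t ^ 2) * volume (closedBall (0 : E) 1) := by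
    have h2 : ∑ x ∈ X, volume (K x) = ∫⁻ z : E, ∑ x ∈ X, (K x).indicator 1 z := by
      rw [lintegral_finset_sum _ fun x _ => (measurable_one.indicator (hKm x))]
      exact Finset.sum_congr rfl fun x _ => (lintegral_indicator_one (hKm x)).symm
    rw [h2]
    have h3 : ∀ z : E, ∑ x ∈ X, (K x).indicator (1 : E → ℝ≥0∞) z ≤
        (closedBall (0 : E) 1).indicator (fun _ => ENNReal.ofReal (2 / t ^ 2)) z := by
      intro z
      have h4 : ∑ x ∈ X, (K x).indicator (1 : E → ℝ≥0∞) z =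
          ((X.filter fun x => z ∈ K x).card : ℝ≥0∞) := by
        rw [Finset.card_filter, Nat.cast_sum]
        refine Finset.sum_congr rfl fun x _ => ?_
        by_cases h : z ∈ K x
        · rw [Set.indicator_of_mem h, if_pos h]; simp
        · rw [Set.indicator_of_notMem h, if_neg h]; simp
      rw [h4]
      by_cases hz : z ∈ closedBall (0 : E) 1
      · rw [Set.indicator_of_mem hz, ← ENNReal.ofReal_natCast]
        apply ENNReal.ofReal_le_ofReal
        rw [mem_closedBall, dist_zero_right] at hz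
        have h5 := cap_count (X := X.filter fun x => z ∈ K x) (α := t ^ 2 / 2) (t := t)
          (fun x hx => hX x (Finset.mem_filter.1 hx).1) (by positivity)
          (fun x hx y hy hxy => hin x (Finset.mem_filter.1 hx).1 y (Finset.mem_filter.1 hy).1 hxy)
          ht.le hz (fun x hx => (Finset.mem_filter.1 hx).2.1.1)
        rw [le_div_iff₀ (by positivity)]
        nlinarith
      · rw [Set.indicator_of_notMem hz]
        have h5 : (X.filter fun x => z ∈ K x) = ∅ := by
          rw [Finset.filter_eq_empty_iff]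
          intro x _ h
          exact hz (hKb x h)
        rw [h5]
        simp
    refine (lintegral_mono h3).trans ?_
    rw [lintegral_indicator measurableSet_closedBall, setLIntegral_const]
  have h2 : ∑ x ∈ X, volume.real (K x) ≤ 2 / t ^ 2 * vb E := by
    have h3 : ∑ x ∈ X, volume.real (K x) = (∑ x ∈ X, volume (K x)).toReal := by
      rw [ENNReal.toReal_sum fun x _ => hfin x]
      rfl
    rw [h3]
    have h4 := ENNReal.toReal_mono
      (ENNReal.mul_ne_top ENNReal.ofReal_ne_top measure_closedBall_lt_top.ne) h1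
    rw [ENNReal.toReal_mul, ENNReal.toReal_ofReal (by positivity), ← measureReal_def,
      vol_closedBall _ zero_le_one, one_pow, one_mul] at h4
    exact h4
  have h3 : (X.card : ℝ) * (t * ρ ^ (finrank ℝ E - 1) * (vb E / 2)) ≤ 2 / t ^ 2 * vb E := by
    refine le_trans ?_ h2
    rw [← nsmul_eq_mul, ← Finset.sum_const]
    exact Finset.sum_le_sum hvol
  have hv := vb_pos (E := E)
  have h4 : (X.card : ℝ) * (t * ρ ^ (finrank ℝ E - 1)) * vb E ≤ (4 / t ^ 2) * vb E := by
    calc (X.card : ℝ) * (t * ρ ^ (finrank ℝ E - 1)) * vb E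
        = 2 * ((X.card : ℝ) * (t * ρ ^ (finrank ℝ E - 1) * (vb E / 2))) := by ring
      _ ≤ 2 * (2 / t ^ 2 * vb E) := by linarith
      _ = _ := by ring
  have h5 := le_of_mul_le_mul_right h4 hv
  rw [le_div_iff₀ (by positivity)] at h5
  linarith

end

end Pool.Agent.H58.ST
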